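import Pool.Agent.P.MP_39eed7_co.Defs

/-! A Favaron-type maximiser and the crude linear inequalities. -/

set_option autoImplicit false
set_option linter.unusedSectionVars false

open Finset

namespace Pool.Agent.P.MP_39eed7_co

variable {V : Type} [DecidableEq V]

/-- `w` has exactly `k+1` ordinary and no hard neighbours in `S` -/
def Good (k : ℕ) (G H : SimpleGraph V) (S : Finset V) (w : V) : Prop :=
  w ∉ S ∧ dg G S w = k + 1 ∧ dg H S w = 0

noncomputable def pot (k : ℕ) (G H : SimpleGraph V) (S : Finset V) : ℤ :=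
  (2 * k + 1) * (S.card : ℤ) - E2 G S - (k + 1) * E2 H S

variable {k : ℕ} {G H : SimpleGraph V} {S U : Finset V} {v : V}

lemma pot_insert (h : v ∉ S) :
    pot k G H (insert v S) = pot k G H S + (2 * k + 1) - 2 * dg G S v - 2 * (k + 1) * dg H S v := by
  unfold pot
  rw [E2_insert h, E2_insert h, card_insert_of_notMem h]
  push_cast
  ring

lemma pot_erase (h : v ∈ S) :
    pot k G H (S.erase v) = pot k G H S - (2 * k + 1) + 2 * dg G S v + 2 * (k + 1) * dg H S v := by
  have := pot_insert (k := k) (G := G) (H := H) (notMem_erase v S)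
  rw [insert_erase h, dg_erase_self, dg_erase_self] at this
  linarith

theorem exists_fav (k : ℕ) (G H : SimpleGraph V) (U : Finset V) :
    ∃ S ⊆ U, Valid k G H S ∧ (∀ w ∈ U \ S, k + 1 ≤ dg G S w + (k + 1) * dg H S w) ∧
      ∀ u ∈ S, dg G S u = k → ∀ w ∈ U, ∀ w' ∈ U, Good k G H S w → Good k G H S w' →
        G.Adj u w → G.Adj u w' → w ≠ w' → (G ⊔ H).Adj w w' := by
  obtain ⟨S, hS, hmax⟩ := exists_max_image U.powerset (pot k G H) ⟨∅, by simp⟩
  simp only [mem_powerset] at hS hmax
  have h1 : ∀ u ∈ S, dg G S u + (k + 1) * dg H S u ≤ k := by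
    intro u hu
    have := hmax _ ((erase_subset u S).trans hS)
    rw [pot_erase hu] at this
    have h2 : 2 * (dg G S u + (k + 1) * dg H S u) ≤ 2 * k + 1 := by
      zify; linarith
    omega
  have h2 : ∀ u ∈ S, dg H S u = 0 := by
    intro u hu
    have := h1 u hu
    by_contra h
    have : 1 ≤ dg H S u := Nat.one_le_iff_ne_zero.2 h
    nlinarith
  refine ⟨S, hS, ⟨fun u hu => le_trans (Nat.le_add_right _ _) (h1 u hu),
    fun u hu => dg_eq_zero.1 (h2 u hu)⟩, fun w hw => ?_, ?_⟩
  · rw [mem_sdiff] at hw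
    have := hmax _ (insert_subset hw.1 hS)
    rw [pot_insert hw.2] at this
    have h3 : 2 * k + 1 ≤ 2 * (dg G S w + (k + 1) * dg H S w) := by
      zify; linarith
    omega
  · intro u hu hk w hw w' hw' g g' a a' hne
    by_contra hn
    simp only [SimpleGraph.sup_adj, not_or] at hn
    have n1 : w ∉ S.erase u := fun h => g.1 (mem_of_mem_erase h)
    have n2 : w' ∉ insert w (S.erase u) := by
      simp only [mem_insert, not_or]
      exact ⟨hne.symm, fun h => g'.1 (mem_of_mem_erase h)⟩
    have := hmax (insert w' (insert w (S.erase u)))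
      (insert_subset hw' (insert_subset hw ((erase_subset u S).trans hS)))
    rw [pot_insert n2, pot_insert n1, pot_erase hu, dg_insert_not fun h => hn.1 h.symm,
      dg_insert_not fun h => hn.2 h.symm] at this
    have e1 := dg_erase_adj hu a.symm
    have e2 := dg_erase_adj hu a'.symm
    have e3 : dg H (S.erase u) w = 0 :=
      Nat.le_zero.1 (g.2.2 ▸ dg_mono (erase_subset u S))
    have e4 : dg H (S.erase u) w' = 0 :=
      Nat.le_zero.1 (g'.2.2 ▸ dg_mono (erase_subset u S))
    rw [g.2.1] at e1
    rw [g'.2.1] at e2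
    rw [e3, e4, hk, h2 u hu, Nat.add_right_cancel e1, Nat.add_right_cancel e2] at this
    push_cast at this
    linarith

/-- Lovasz-type bound -/
lemma lovasz {m : ℕ} (h : ∀ v ∈ U, dg G U v + (k + 1) * dg H U v ≤ m) :
    (k + 1) * U.card ≤ al k G H U * (m + k + 1) := by
  obtain ⟨S, hS, hv, hd, -⟩ := exists_fav k G H U
  have h1 : (k + 1) * (U \ S).card ≤ m * S.card := by
    calc _ = ∑ _w ∈ U \ S, (k + 1) := by simp [mul_comm]
      _ ≤ ∑ w ∈ U \ S, (dg G S w + (k + 1) * dg H S w) := sum_le_sum hd
      _ = ∑ u ∈ S, (dg G (U \ S) u + (k + 1) * dg H (U \ S) u) := by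
          rw [sum_add_distrib, sum_add_distrib, ← mul_sum, ← mul_sum, sum_dg_comm G,
            sum_dg_comm H]
      _ ≤ ∑ _u ∈ S, m := sum_le_sum fun u hu => le_trans
          (add_le_add (dg_mono sdiff_subset) (Nat.mul_le_mul_left _ (dg_mono sdiff_subset)))
          (h u (hS hu))
      _ = _ := by simp [mul_comm]
  have h2 := card_sdiff_add_card_eq_card hS
  have h3 := le_al hS hv
  nlinarith

theorem crude (k : ℕ) (G H : SimpleGraph V) (m : ℕ) : ∀ U : Finset V,
    Ineq k m (m * (m + 1) + 2 * k * m) (k + 1) G H U := by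
  induction m with
  | zero => intro U; simp [Ineq]
  | succ m ih =>
    intro U
    induction U using Finset.strongInduction with
    | H U ihU =>
      by_cases h : ∀ v ∈ U, dg G U v + (k + 1) * dg H U v ≤ m
      · have h1 := lovasz h
        have h2 := ih U
        unfold Ineq at h2 ⊢
        nlinarith
      · push Not at h
        obtain ⟨v, hv, h⟩ := h
        have h1 := ihU _ (erase_ssubset hv)
        have h2 := al_mono (k := k) (G := G) (H := H) (erase_subset v U)
        have h3 := card_erase_add_one hv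
        unfold Ineq at h1 ⊢
        rw [E2_erase (G := G) hv, E2_erase (G := H) hv, ← h3]
        have h4 := Nat.mul_le_mul_right ((m + 1) * (m + 1 + 1) + 2 * k * (m + 1)) h2
        have h5 := Nat.mul_le_mul_left (2 * (k + 1)) (Nat.succ_le_of_lt h)
        nlinarith

end Pool.Agent.P.MP_39eed7_co
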