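import Mathlib

/-! Graphs with ordinary edges `G` and hard edges `H` on a finite vertex set `U`. -/

set_option autoImplicit false
set_option linter.unusedSectionVars false

open Finset

namespace Pool.Agent.P.MP_39eed7_co

variable {V : Type} [DecidableEq V]

open Classical in
/-- neighbours of `v` inside `U` -/
noncomputable def nb (G : SimpleGraph V) (U : Finset V) (v : V) : Finset V := U.filter (G.Adj v)

/-- degree of `v` into `U` -/
noncomputable def dg (G : SimpleGraph V) (U : Finset V) (v : V) : ℕ := (nb G U v).card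

/-- twice the number of edges inside `U` -/
noncomputable def E2 (G : SimpleGraph V) (U : Finset V) : ℕ := ∑ v ∈ U, dg G U v

/-- `k`-independent for `G` and independent for `H` -/
def Valid (k : ℕ) (G H : SimpleGraph V) (S : Finset V) : Prop :=
  (∀ v ∈ S, dg G S v ≤ k) ∧ ∀ v ∈ S, ∀ w ∈ S, ¬ H.Adj v w

open Classical in
/-- the largest valid subset of `U` -/
noncomputable def al (k : ℕ) (G H : SimpleGraph V) (U : Finset V) : ℕ :=
  (U.powerset.filter (Valid k G H)).sup card

variable {G H : SimpleGraph V} {U S X A B : Finset V} {v w : V} {k : ℕ}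

@[simp] lemma mem_nb : w ∈ nb G U v ↔ w ∈ U ∧ G.Adj v w := by simp [nb]

lemma nb_subset : nb G U v ⊆ U := fun _ h => (mem_nb.1 h).1

lemma nb_mono (h : A ⊆ B) : nb G A v ⊆ nb G B v := fun _ hw =>
  mem_nb.2 ⟨h (mem_nb.1 hw).1, (mem_nb.1 hw).2⟩

lemma dg_mono (h : A ⊆ B) : dg G A v ≤ dg G B v := card_le_card (nb_mono h)

lemma dg_le_card : dg G A v ≤ A.card := card_le_card nb_subset

lemma dg_lt_card (h : v ∈ A) : dg G A v + 1 ≤ A.card := by
  refine card_lt_card ⟨nb_subset, fun h' => ?_⟩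
  simpa using h' h

lemma dg_union_le : dg G (A ∪ B) v ≤ dg G A v + dg G B v := by
  refine le_trans (card_le_card fun w hw => ?_) (card_union_le _ _)
  simp only [mem_nb, mem_union] at hw ⊢
  tauto

lemma dg_union (h : Disjoint A B) : dg G (A ∪ B) v = dg G A v + dg G B v := by
  unfold dg
  rw [← card_union_of_disjoint (h.mono nb_subset nb_subset)]
  congr 1
  ext w
  simp only [mem_nb, mem_union]
  tauto

lemma dg_sdiff (h : X ⊆ U) : dg G (U \ X) v + dg G X v = dg G U v := by
  rw [← dg_union sdiff_disjoint, sdiff_union_of_subset h]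

lemma dg_sup_le : dg (G ⊔ H) A v ≤ dg G A v + dg H A v := by
  refine le_trans (card_le_card fun w hw => ?_) (card_union_le _ _)
  simp only [mem_nb, mem_union, SimpleGraph.sup_adj] at hw ⊢
  tauto

lemma dg_eq_zero : dg G A v = 0 ↔ ∀ w ∈ A, ¬ G.Adj v w := by
  simp [dg, eq_empty_iff_forall_notMem]

open Classical in
lemma dg_eq_sum : dg G A v = ∑ w ∈ A, if G.Adj v w then 1 else 0 := by
  rw [dg, nb, card_filter]

lemma sum_dg_comm (G : SimpleGraph V) (A B : Finset V) :
    ∑ v ∈ A, dg G B v = ∑ w ∈ B, dg G A w := by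
  simp only [dg_eq_sum]
  rw [sum_comm]
  exact sum_congr rfl fun w _ => sum_congr rfl fun v _ => by rw [G.adj_comm]

lemma E2_split (h : X ⊆ U) :
    E2 G U = E2 G (U \ X) + E2 G X + 2 * ∑ x ∈ X, dg G (U \ X) x := by
  unfold E2
  rw [← sum_sdiff h]
  simp only [← dg_sdiff (G := G) h, sum_add_distrib]
  rw [sum_dg_comm G (U \ X) X]
  ring

lemma E2_mono (h : A ⊆ B) : E2 G A ≤ E2 G B :=
  (sum_le_sum fun _ _ => dg_mono h).trans (sum_le_sum_of_subset h)

lemma dg_erase_self : dg G (A.erase v) v = dg G A v := by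
  unfold dg
  congr 1
  ext w
  simp only [mem_nb, mem_erase]
  exact ⟨fun h => ⟨h.1.2, h.2⟩, fun h => ⟨⟨h.2.ne', h.1⟩, h.2⟩⟩

lemma E2_erase (h : v ∈ U) : E2 G U = E2 G (U.erase v) + 2 * dg G U v := by
  have h1 := E2_split (G := G) (singleton_subset_iff.2 h)
  have h2 : E2 G {v} = 0 := by simp [E2, dg_eq_zero]
  rw [h1, h2, sum_singleton, sdiff_singleton_eq_erase, dg_erase_self, add_zero]

lemma E2_insert (h : v ∉ U) : E2 G (insert v U) = E2 G U + 2 * dg G U v := by
  rw [E2_erase (mem_insert_self v U), ← dg_erase_self, erase_insert h]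

lemma dg_erase_adj (h : v ∈ A) (h' : G.Adj w v) : dg G (A.erase v) w + 1 = dg G A w := by
  have : nb G (A.erase v) w = (nb G A w).erase v := by
    ext x
    simp only [mem_nb, mem_erase]
    tauto
  unfold dg
  rw [this, card_erase_add_one (mem_nb.2 ⟨h, h'⟩)]

lemma dg_insert_not (h' : ¬ G.Adj w v) : dg G (insert v A) w = dg G A w := by
  unfold dg
  congr 1
  ext x
  simp only [mem_nb, mem_insert]
  constructor
  · rintro ⟨rfl | h, h2⟩
    · exact absurd h2 h'
    · exact ⟨h, h2⟩
  · exact fun h => ⟨Or.inr h.1, h.2⟩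

/-- the set of vertices of `U` with a neighbour in `D` -/
lemma card_biUnion_nb_le {d : ℕ} (h : ∀ x ∈ A, dg G U x ≤ d) :
    (A.biUnion (nb G U)).card ≤ A.card * d :=
  card_biUnion_le_card_mul _ _ _ h

lemma Valid.mono (h : Valid k G H S) (h' : A ⊆ S) : Valid k G H A :=
  ⟨fun v hv => (dg_mono h').trans (h.1 v (h' hv)), fun v hv w hw => h.2 v (h' hv) w (h' hw)⟩

lemma valid_empty : Valid k G H ∅ := ⟨by simp, by simp⟩

lemma le_al (h : S ⊆ U) (hv : Valid k G H S) : S.card ≤ al k G H U := by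
  classical
  exact le_sup (f := card) (mem_filter.2 ⟨mem_powerset.2 h, hv⟩)

lemma exists_al (k : ℕ) (G H : SimpleGraph V) (U : Finset V) :
    ∃ S ⊆ U, Valid k G H S ∧ S.card = al k G H U := by
  classical
  obtain ⟨S, hS, e⟩ := exists_mem_eq_sup (U.powerset.filter (Valid k G H))
    ⟨∅, mem_filter.2 ⟨by simp, valid_empty⟩⟩ card
  rw [mem_filter, mem_powerset] at hS
  exact ⟨S, hS.1, hS.2, e.symm⟩

lemma al_mono (h : A ⊆ B) : al k G H A ≤ al k G H B := by
  obtain ⟨S, h1, h2, h3⟩ := exists_al k G H A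
  exact h3 ▸ le_al (h1.trans h) h2

/-- joining two valid sets without edges between them -/
lemma Valid.union (h1 : Valid k G H A) (h2 : Valid k G H B)
    (h : ∀ a ∈ A, ∀ b ∈ B, ¬ (G ⊔ H).Adj a b) : Valid k G H (A ∪ B) := by
  simp only [SimpleGraph.sup_adj, not_or] at h
  constructor
  · intro v hv
    refine dg_union_le.trans ?_
    rcases mem_union.1 hv with hv | hv
    · rw [dg_eq_zero.2 fun w hw => (h v hv w hw).1]
      exact h1.1 v hv
    · rw [dg_eq_zero.2 fun w hw h' => (h w hw v hv).1 h'.symm, zero_add]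
      exact h2.1 v hv
  · intro v hv w hw
    rcases mem_union.1 hv with hv | hv <;> rcases mem_union.1 hw with hw | hw
    · exact h1.2 v hv w hw
    · exact (h v hv w hw).2
    · exact fun h' => (h w hw v hv).2 h'.symm
    · exact h2.2 v hv w hw

/-- greedy independent subset -/
lemma exists_indep (H : SimpleGraph V) (s j : ℕ) : ∀ B : Finset V, (∀ b ∈ B, dg H B b ≤ s) →
    j * (s + 1) < B.card → ∃ T ⊆ B, T.card = j + 1 ∧ ∀ v ∈ T, ∀ w ∈ T, ¬ H.Adj v w := by
  induction j with
  | zero =>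
    intro B _ hB
    obtain ⟨b, hb⟩ := card_pos.1 (by simpa using hB)
    exact ⟨{b}, by simpa using hb, by simp, by simp⟩
  | succ j ih =>
    intro B hs hB
    obtain ⟨b, hb⟩ := card_pos.1 (lt_of_le_of_lt (Nat.zero_le _) hB)
    have h1 : (insert b (nb H B b)).card ≤ s + 1 :=
      (card_insert_le _ _).trans (Nat.add_le_add_right (hs b hb) 1)
    have h2 := le_card_sdiff (insert b (nb H B b)) B
    obtain ⟨T, t1, t2, t3⟩ := ih (B \ insert b (nb H B b))
      (fun x hx => (dg_mono sdiff_subset).trans (hs x (mem_sdiff.1 hx).1))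
      (by rw [add_mul] at hB; omega)
    have hT : ∀ x ∈ T, x ∈ B ∧ x ≠ b ∧ ¬ H.Adj b x := by
      intro x hx
      have := t1 hx
      simp only [mem_sdiff, mem_insert, mem_nb, not_or, not_and] at this
      exact ⟨this.1, this.2.1, this.2.2 this.1⟩
    have hbT : b ∉ T := fun h => (hT b h).2.1 rfl
    refine ⟨insert b T, insert_subset hb fun x hx => (hT x hx).1,
      by rw [card_insert_of_notMem hbT, t2], ?_⟩
    intro v hv w hw
    rcases mem_insert.1 hv with e | hv <;> rcases mem_insert.1 hw with e' | hw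
    · rw [e, e']; exact H.irrefl
    · rw [e]; exact (hT w hw).2.2
    · rw [e']; exact fun h => (hT v hv).2.2 h.symm
    · exact t3 v hv w hw

/-- The inequality to be proved; `a` is the coefficient of `al`. -/
def Ineq (k m a c : ℕ) (G H : SimpleGraph V) (U : Finset V) : Prop :=
  2 * (k + 1) * m * U.card ≤ (k + 1) * (E2 G U + c * E2 H U) + al k G H U * a

end Pool.Agent.P.MP_39eed7_co
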