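import Pool.Agent.P.MP_39eed7_co.Crude

/-! The sunflower exchange: enlarging a valid set at small cost. -/

set_option autoImplicit false
set_option linter.unusedSectionVars false

open Finset

namespace Pool.Agent.P.MP_39eed7_co

variable {V : Type} [DecidableEq V] {k : ℕ} {G H : SimpleGraph V}

lemma kernel {L M : ℕ} (hL : 0 < L) (S : Finset V) (r : ℕ) : ∀ K A : Finset V, K ⊆ S →
    (∀ a ∈ A, ∀ s ∈ K, G.Adj a s) → (∀ a ∈ A, dg G S a ≤ K.card + r) → M * L ^ r ≤ A.card →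
    ∃ K' A' : Finset V, K ⊆ K' ∧ K' ⊆ S ∧ A' ⊆ A ∧ (∀ a ∈ A', ∀ s ∈ K', G.Adj a s) ∧
      M ≤ A'.card ∧ ∀ s ∈ S \ K', L * dg G A' s ≤ A'.card := by
  induction r with
  | zero =>
    intro K A hK h1 h2 h3
    refine ⟨K, A, Subset.rfl, hK, Subset.rfl, h1, by simpa using h3, fun s hs => ?_⟩
    rw [mem_sdiff] at hs
    rw [dg_eq_zero.2, mul_zero]
    · exact Nat.zero_le _
    intro a ha h
    have : insert s K ⊆ nb G S a := insert_subset (mem_nb.2 ⟨hs.1, h.symm⟩)
      fun x hx => mem_nb.2 ⟨hK hx, h1 a ha x hx⟩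
    have h4 := card_le_card this
    rw [card_insert_of_notMem hs.2] at h4
    have := h2 a ha
    unfold dg at this
    omega
  | succ r ih =>
    intro K A hK h1 h2 h3
    by_cases h : ∀ s ∈ S \ K, L * dg G A s ≤ A.card
    · exact ⟨K, A, Subset.rfl, hK, Subset.rfl, h1,
        le_trans (Nat.le_mul_of_pos_right _ (pow_pos hL _)) h3, h⟩
    · push Not at h
      obtain ⟨s, hs, h⟩ := h
      rw [mem_sdiff] at hs
      obtain ⟨K', A', a1, a2, a3, a4⟩ := ih (insert s K) (nb G A s) (insert_subset hs.1 hK)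
        (fun a ha x hx => by
          rcases mem_insert.1 hx with e | hx
          · rw [e]; exact (mem_nb.1 ha).2.symm
          · exact h1 a (nb_subset ha) x hx)
        (fun a ha => by
          rw [card_insert_of_notMem hs.2]
          have := h2 a (nb_subset ha)
          omega)
        (by
          refine Nat.le_of_mul_le_mul_left (c := L) ?_ hL
          rw [pow_succ] at h3
          unfold dg at h
          nlinarith)
      exact ⟨K', A', (subset_insert _ _).trans a1, a2, a3.trans nb_subset, a4⟩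

lemma pick {L : ℕ} {R A T0 : Finset V} (hL : ∀ s ∈ R, L * dg G A s ≤ A.card)
    (hd : ∀ a ∈ T0 ∪ A, dg G R a ≤ k + 1) (h0 : ∀ s ∈ R, dg G T0 s ≤ 1) (j : ℕ) :
    2 * ((T0.card + j) * (k + 1)) ≤ L → 2 * j ≤ A.card →
    ∃ T ⊆ A, T.card = j ∧ ∀ s ∈ R, dg G (T0 ∪ T) s ≤ 1 := by
  induction j with
  | zero => exact fun _ _ => ⟨∅, by simp, rfl, by simpa using h0⟩
  | succ j ih =>
    intro h1 h2
    obtain ⟨T, t1, t2, t3⟩ := ih (by nlinarith) (by omega)
    set F := (T0 ∪ T).biUnion (nb G R) with hF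
    have f1 : F.card ≤ (T0.card + j) * (k + 1) :=
      (card_biUnion_nb_le fun x hx => hd x (union_subset_union Subset.rfl t1 hx)).trans
        (Nat.mul_le_mul_right _ (t2 ▸ card_union_le _ _))
    have f2 : F ⊆ R := biUnion_subset.2 fun _ _ => nb_subset
    have f3 : L * (F.biUnion (nb G A)).card ≤ F.card * A.card := by
      calc _ ≤ L * ∑ s ∈ F, dg G A s := Nat.mul_le_mul_left _ card_biUnion_le
        _ = ∑ s ∈ F, L * dg G A s := mul_sum _ _ _
        _ ≤ ∑ _s ∈ F, A.card := sum_le_sum fun s hs => hL s (f2 hs)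
        _ = _ := by simp
    have f4 : 2 * (F.biUnion (nb G A)).card ≤ A.card := by
      refine Nat.le_of_mul_le_mul_left (c := L) ?_ (by nlinarith)
      have : 2 * F.card ≤ L := by nlinarith
      nlinarith
    have f5 := card_union_le T (F.biUnion (nb G A))
    obtain ⟨x, hx, hx'⟩ := exists_mem_notMem_of_card_lt_card
      (show (T ∪ F.biUnion (nb G A)).card < A.card by omega)
    rw [mem_union, not_or] at hx'
    refine ⟨insert x T, insert_subset hx t1, by rw [card_insert_of_notMem hx'.1, t2],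
      fun s hs => ?_⟩
    rw [union_insert]
    by_cases a : G.Adj s x
    · have h3 : dg G (T0 ∪ T) s = 0 := dg_eq_zero.2 fun w hw a' =>
        hx'.2 (mem_biUnion.2 ⟨s, mem_biUnion.2 ⟨w, hw, mem_nb.2 ⟨hs, a'.symm⟩⟩,
          mem_nb.2 ⟨hx, a⟩⟩)
      rw [insert_eq]
      refine dg_union_le.trans ?_
      rw [h3, add_zero]
      exact dg_le_card.trans (by simp)
    · rw [dg_insert_not a]
      exact t3 s hs

/-- a good vertex all of whose neighbours in `S` are unsaturated -/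
def Clean (k : ℕ) (G H : SimpleGraph V) (S : Finset V) (w : V) : Prop :=
  Good k G H S w ∧ ∀ s ∈ S, G.Adj w s → dg G S s + 1 ≤ k

lemma petal_bound {S K K' T : Finset V} {a : V} (hK : K ⊆ K') (hS : K ⊆ S)
    (h : ∀ s ∈ K, G.Adj a s) (hd : dg G S a = k + 1) (ha : a ∈ T) (hT : T.card = K.card) :
    dg G (S \ K') a + dg G T a ≤ k := by
  have h1 := dg_sdiff (G := G) (v := a) hS
  have h2 : K.card ≤ dg G K a := card_le_card fun s hs => mem_nb.2 ⟨hs, h s hs⟩
  have h3 := dg_lt_card (G := G) ha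
  have h4 : dg G (S \ K') a ≤ dg G (S \ K) a := dg_mono (sdiff_subset_sdiff Subset.rfl hK)
  omega

theorem improve {S A B : Finset V} {u : V} (hv : Valid k G H S) (hu : u ∈ S)
    (hA : ∀ a ∈ A ∪ B, Clean k G H S a ∧ G.Adj a u) (hAB : Disjoint A B)
    (hI : ∀ a ∈ A ∪ B, ∀ b ∈ A ∪ B, ¬ H.Adj a b) (hG : ∀ a ∈ A, ∀ b ∈ B, ¬ G.Adj a b)
    (cA : (2 * k + 2) * (4 * (k + 1) ^ 2) ^ k ≤ A.card)
    (cB : (2 * k + 2) * (4 * (k + 1) ^ 2) ^ k ≤ B.card) :
    ∃ K ⊆ S, ∃ T ⊆ A ∪ B, K.card + 1 ≤ T.card ∧ T.card ≤ 2 * k + 2 ∧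
      Valid k G H (S \ K ∪ T) := by
  have hA1 : ∀ a ∈ A, Clean k G H S a ∧ G.Adj a u := fun a ha => hA a (mem_union_left _ ha)
  have hB1 : ∀ a ∈ B, Clean k G H S a ∧ G.Adj a u := fun a ha => hA a (mem_union_right _ ha)
  obtain ⟨KA, A1, a1, a2, a3, a4, a5, a6⟩ := kernel (G := G) (by positivity) S k {u} A
    (by simpa using hu) (fun a ha => by simpa using (hA1 a ha).2)
    (fun a ha => by rw [(hA1 a ha).1.1.2.1, card_singleton]; omega) cA
  obtain ⟨KB, B1, b1, b2, b3, b4, b5, b6⟩ := kernel (G := G) (by positivity) S k {u} B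
    (by simpa using hu) (fun a ha => by simpa using (hB1 a ha).2)
    (fun a ha => by rw [(hB1 a ha).1.1.2.1, card_singleton]; omega) cB
  have kA : KA.card ≤ k + 1 := by
    obtain ⟨a, ha⟩ := card_pos.1 (show 0 < A1.card by omega)
    rw [← (hA1 a (a3 ha)).1.1.2.1]
    exact card_le_card fun s hs => mem_nb.2 ⟨a2 hs, a4 a ha s hs⟩
  have kB : KB.card ≤ k + 1 := by
    obtain ⟨a, ha⟩ := card_pos.1 (show 0 < B1.card by omega)
    rw [← (hB1 a (b3 ha)).1.1.2.1]
    exact card_le_card fun s hs => mem_nb.2 ⟨b2 hs, b4 a ha s hs⟩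
  have hd : ∀ a ∈ A ∪ B, dg G (S \ (KA ∪ KB)) a ≤ k + 1 := fun a ha =>
    (dg_mono sdiff_subset).trans (hA a ha).1.1.2.1.le
  obtain ⟨TA, s1, s2, s3⟩ := pick (k := k) (R := S \ (KA ∪ KB)) (T0 := ∅)
    (fun s hs => a6 s (sdiff_subset_sdiff Subset.rfl subset_union_left hs))
    (fun a ha => hd a (mem_union_left _ (a3 (by simpa using ha))))
    (fun s _ => dg_le_card.trans (by simp)) KA.card (by rw [card_empty]; nlinarith) (by omega)
  rw [empty_union] at s3
  obtain ⟨TB, t1, t2, t3⟩ := pick (k := k) (R := S \ (KA ∪ KB)) (T0 := TA)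
    (fun s hs => b6 s (sdiff_subset_sdiff Subset.rfl subset_union_right hs))
    (fun a ha => hd a (union_subset_union (s1.trans a3) b3 ha)) s3 KB.card
    (by rw [s2]; nlinarith) (by omega)
  have hT : TA ∪ TB ⊆ A ∪ B := union_subset_union (s1.trans a3) (t1.trans b3)
  have c1 : (TA ∪ TB).card = KA.card + KB.card := by
    rw [card_union_of_disjoint (hAB.mono (s1.trans a3) (t1.trans b3)), s2, t2]
  have c2 := card_union_add_card_inter KA KB
  have c3 : 0 < (KA ∩ KB).card :=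
    card_pos.2 ⟨u, mem_inter.2 ⟨a1 (mem_singleton_self u), b1 (mem_singleton_self u)⟩⟩
  refine ⟨KA ∪ KB, union_subset a2 b2, TA ∪ TB, hT, by omega, by omega, fun v hv' => ?_, ?_⟩
  · refine dg_union_le.trans ?_
    rcases mem_union.1 hv' with h | h
    · have h1 : dg G (S \ (KA ∪ KB)) v ≤ dg G S v := dg_mono sdiff_subset
      have h2 := t3 v h
      by_cases h3 : dg G (TA ∪ TB) v = 0
      · have := hv.1 v (mem_sdiff.1 h).1
        omega
      · rw [dg_eq_zero] at h3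
        push Not at h3
        obtain ⟨w, hw, a⟩ := h3
        have := (hA w (hT hw)).1.2 v (mem_sdiff.1 h).1 a.symm
        omega
    · have h1 : dg G (TA ∪ TB) v ≤ dg G TA v + dg G TB v := dg_union_le
      rcases mem_union.1 h with h | h
      · have h2 := petal_bound (subset_union_left (s₂ := KB)) a2 (a4 v (s1 h))
          (hA1 v (a3 (s1 h))).1.1.2.1 h s2
        have h3 : dg G TB v = 0 := dg_eq_zero.2 fun w hw => hG v (a3 (s1 h)) w (b3 (t1 hw))
        omega
      · have h2 := petal_bound (subset_union_right (s₁ := KA)) b2 (b4 v (t1 h))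
          (hB1 v (b3 (t1 h))).1.1.2.1 h t2
        have h3 : dg G TA v = 0 :=
          dg_eq_zero.2 fun w hw a => hG w (a3 (s1 hw)) v (b3 (t1 h)) a.symm
        omega
  · intro v h w h'
    rcases mem_union.1 h with h | h <;> rcases mem_union.1 h' with h' | h'
    · exact hv.2 v (mem_sdiff.1 h).1 w (mem_sdiff.1 h').1
    · exact fun a => dg_eq_zero.1 (hA w (hT h')).1.1.2.2 v (mem_sdiff.1 h).1 a.symm
    · exact dg_eq_zero.1 (hA v (hT h)).1.1.2.2 w (mem_sdiff.1 h').1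
    · exact hI v (hT h) w (hT h')

lemma clean_keep {S K T : Finset V} {w : V} (hK : K ⊆ S) (hw : Clean k G H S w) (h1 : w ∉ T)
    (h2 : ∀ x ∈ K ∪ T ∪ T.biUnion (nb G S), ¬ (G ⊔ H).Adj x w) : Clean k G H (S \ K ∪ T) w := by
  simp only [SimpleGraph.sup_adj, not_or, mem_union] at h2
  have gK : dg G K w = 0 := dg_eq_zero.2 fun x hx a => (h2 x (by simp [hx])).1 a.symm
  have hd : Disjoint (S \ K) (T \ (S \ K)) := disjoint_sdiff
  refine ⟨⟨by simp [hw.1.1, h1], ?_, ?_⟩, fun s hs a => ?_⟩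
  · have g1 := dg_sdiff (G := G) (v := w) hK
    rw [← union_sdiff_self_eq_union, dg_union hd, dg_eq_zero (A := T \ (S \ K)).2
      fun x hx a => (h2 x (by simp [(mem_sdiff.1 hx).1])).1 a.symm]
    have := hw.1.2.1
    omega
  · refine dg_eq_zero.2 fun x hx a => ?_
    rcases mem_union.1 hx with hx | hx
    · exact dg_eq_zero.1 hw.1.2.2 x (mem_sdiff.1 hx).1 a
    · exact (h2 x (by simp [hx])).2 a.symm
  · rcases mem_union.1 hs with hs | hs
    · have g1 := hw.2 s (mem_sdiff.1 hs).1 a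
      have g2 : dg G (S \ K ∪ T) s ≤ dg G (S \ K) s + dg G T s := dg_union_le
      have g3 : dg G (S \ K) s ≤ dg G S s := dg_mono sdiff_subset
      have g4 : dg G T s = 0 := dg_eq_zero.2 fun x hx a' =>
        (h2 s (Or.inr (mem_biUnion.2 ⟨x, hx, mem_nb.2 ⟨(mem_sdiff.1 hs).1, a'.symm⟩⟩))).1 a.symm
      omega
    · exact absurd a.symm (h2 s (by simp [hs])).1

open Classical in
/-- A valid set that cannot be improved any more and keeps most of the clean vertices. -/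
theorem stable {U S0 : Finset V} {m : ℕ} (hm : 0 < m) (hd : ∀ v ∈ U, dg (G ⊔ H) U v ≤ m)
    (h0 : S0 ⊆ U) (hv0 : Valid k G H S0) :
    ∃ S ⊆ U, Valid k G H S ∧
      (U.filter (Clean k G H S0)).card + (2 * k + 2) * (k + 5) * m * S0.card ≤
        (U.filter (Clean k G H S)).card + (2 * k + 2) * (k + 5) * m * al k G H U ∧
      ∀ u ∈ S, ∀ A B : Finset V, A ∪ B ⊆ U → (∀ a ∈ A ∪ B, Clean k G H S a ∧ G.Adj a u) →
        Disjoint A B → (∀ a ∈ A ∪ B, ∀ b ∈ A ∪ B, ¬ H.Adj a b) →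
        (∀ a ∈ A, ∀ b ∈ B, ¬ G.Adj a b) → (2 * k + 2) * (4 * (k + 1) ^ 2) ^ k ≤ A.card →
        (2 * k + 2) * (4 * (k + 1) ^ 2) ^ k ≤ B.card → False := by
  obtain ⟨S, hS, hmax⟩ := exists_max_image (U.powerset.filter (Valid k G H))
    (fun S => (U.filter (Clean k G H S)).card + (2 * k + 2) * (k + 5) * m * S.card)
    ⟨∅, mem_filter.2 ⟨by simp, valid_empty⟩⟩
  simp only [mem_filter, mem_powerset] at hS hmax
  refine ⟨S, hS.1, hS.2, (hmax S0 ⟨h0, hv0⟩).trans
    (Nat.add_le_add_left (Nat.mul_le_mul_left _ (le_al hS.1 hS.2)) _), ?_⟩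
  intro u hu A B hU h1 h2 h3 h4 h5 h6
  obtain ⟨K, k1, T, t1, t2, t3, t4⟩ := improve hS.2 hu h1 h2 h3 h4 h5 h6
  have h7 := hmax _ ⟨union_subset (sdiff_subset.trans hS.1) (t1.trans hU), t4⟩
  have c1 : S.card + 1 ≤ (S \ K ∪ T).card := by
    rw [card_union_of_disjoint (disjoint_left.2 fun x hx hx' =>
      (h1 x (t1 hx')).1.1.1 (mem_sdiff.1 hx).1)]
    have := card_sdiff_add_card_eq_card k1
    omega
  set Z := K ∪ T ∪ T.biUnion (nb G S) with hZ
  have z1 : Z.card ≤ (2 * k + 2) * (k + 3) := by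
    have e1 := card_union_le (K ∪ T) (T.biUnion (nb G S))
    have e2 := card_union_le K T
    have e3 := card_biUnion_nb_le (G := G) (U := S) (A := T) (d := k + 1)
      fun x hx => (h1 x (t1 hx)).1.1.2.1.le
    have e4 := Nat.mul_le_mul_right (k + 1) t3
    rw [← hZ] at e1
    nlinarith
  have z2 : Z ⊆ U := union_subset (union_subset (k1.trans hS.1) (t1.trans hU))
    (biUnion_subset.2 fun _ _ => nb_subset.trans hS.1)
  have z3 := (card_biUnion_nb_le fun x hx => hd x (z2 hx)).trans (Nat.mul_le_mul_right m z1)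
  have z4 : U.filter (Clean k G H S) ⊆
      U.filter (Clean k G H (S \ K ∪ T)) ∪ (T ∪ Z.biUnion (nb (G ⊔ H) U)) := by
    intro w hw
    rw [mem_filter] at hw
    by_contra h
    simp only [mem_union (s := U.filter _), mem_union (s := T), not_or] at h
    exact h.1 (mem_filter.2 ⟨hw.1, clean_keep k1 hw.2 h.2.1 fun x hx a =>
      h.2.2 (mem_biUnion.2 ⟨x, hx, mem_nb.2 ⟨hw.1, a⟩⟩)⟩)
  have z5 := (card_le_card z4).trans ((card_union_le _ _).trans
    (Nat.add_le_add_left (card_union_le _ _) _))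
  have z6 := Nat.mul_le_mul_left ((2 * k + 2) * (k + 5) * m) c1
  have z7 : 2 * k + 2 ≤ (2 * k + 2) * m := Nat.le_mul_of_pos_right _ hm
  nlinarith

/-- Kovari-Sos-Turan by greedy averaging -/
lemma kst_step {J : SimpleGraph V} {Q P : Finset V} {θ m : ℝ} (h0 : 0 < θ)
    (hQ : (Q.card : ℝ) ≤ m) (hQ' : θ * m ≤ Q.card)
    (hP : ∀ p ∈ P, dg J Q p + θ * m ≤ Q.card) (i : ℕ) : (i : ℝ) ≤ θ * m / 2 →
    ∃ B ⊆ Q, B.card = i ∧ ∃ P' ⊆ P, (θ / 2) ^ i * P.card ≤ P'.card ∧
      ∀ a ∈ P', ∀ b ∈ B, ¬ J.Adj a b := by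
  induction i with
  | zero => exact fun _ => ⟨∅, by simp, rfl, P, Subset.rfl, by simp, by simp⟩
  | succ i ih =>
    intro hi
    push_cast at hi
    obtain ⟨B, b1, b2, P', p1, p2, p3⟩ := ih (by linarith)
    have c1 : ((Q \ B).card : ℝ) + i = Q.card := by
      exact_mod_cast b2 ▸ card_sdiff_add_card_eq_card b1
    have c2 : (Q \ B).Nonempty := by
      rw [← card_pos]
      have : (0 : ℝ) < (Q \ B).card := by nlinarith
      exact_mod_cast this
    obtain ⟨b, hb, hs⟩ : ∃ b ∈ Q \ B, (dg J P' b : ℝ) ≤ (1 - θ / 2) * P'.card := by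
      refine exists_le_of_sum_le c2 ?_
      have e1 : ∑ b ∈ Q \ B, (dg J P' b : ℝ) = ∑ p ∈ P', (dg J (Q \ B) p : ℝ) := by
        exact_mod_cast sum_dg_comm J (Q \ B) P'
      rw [e1, sum_const, nsmul_eq_mul]
      calc _ ≤ ∑ _p ∈ P', (1 - θ / 2) * ((Q \ B).card : ℝ) := by
            refine sum_le_sum fun p hp => ?_
            have e2 : (dg J (Q \ B) p : ℝ) ≤ dg J Q p := by exact_mod_cast dg_mono sdiff_subset
            have e3 := hP p (p1 hp)
            have e4 : (0 : ℝ) ≤ i := Nat.cast_nonneg _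
            nlinarith
        _ = _ := by rw [sum_const, nsmul_eq_mul]; ring
    rw [mem_sdiff] at hb
    have c3 : ((P' \ nb J P' b).card : ℝ) + dg J P' b = P'.card := by
      exact_mod_cast card_sdiff_add_card_eq_card nb_subset
    refine ⟨insert b B, insert_subset hb.1 b1, by rw [card_insert_of_notMem hb.2, b2],
      P' \ nb J P' b, sdiff_subset.trans p1, ?_, fun a ha x hx => ?_⟩
    · rw [pow_succ', mul_assoc]
      nlinarith
    · rw [mem_sdiff] at ha
      rcases mem_insert.1 hx with e | hx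
      · rw [e]; exact fun h => ha.2 (mem_nb.2 ⟨ha.1, h.symm⟩)
      · exact p3 a ha.1 x hx

theorem kst {θ : ℝ} (h0 : 0 < θ) (h1 : θ ≤ 1) (M : ℕ) : ∃ m0 : ℝ, ∀ m : ℝ, m0 ≤ m →
    ∀ (V : Type) [DecidableEq V] (J : SimpleGraph V) (Q P : Finset V), P ⊆ Q →
      (Q.card : ℝ) ≤ m → θ * m ≤ P.card → (∀ p ∈ P, dg J Q p + θ * m ≤ Q.card) →
      ∃ A ⊆ Q, ∃ B ⊆ Q, Disjoint A B ∧ M ≤ A.card ∧ M ≤ B.card ∧
        ∀ a ∈ A, ∀ b ∈ B, ¬ J.Adj a b := by
  refine ⟨(2 * M + 1) / ((θ / 2) ^ M * θ), fun m hm V _ J Q P hPQ hQ hP hd => ?_⟩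
  rw [div_le_iff₀ (by positivity)] at hm
  have e0 : (0 : ℝ) < (θ / 2) ^ M := by positivity
  have e1 : (θ / 2) ^ M ≤ 1 := pow_le_one₀ (by positivity) (by linarith)
  have e2 : (0 : ℝ) ≤ M := Nat.cast_nonneg _
  have hm0 : 0 < m := by
    by_contra h
    have := mul_nonpos_of_nonpos_of_nonneg (not_lt.1 h) (mul_pos e0 h0).le
    linarith
  have e3 : (P.card : ℝ) ≤ Q.card := by exact_mod_cast card_le_card hPQ
  have e4 : 0 < θ * m := by positivity
  obtain ⟨B, b1, b2, P', p1, p2, p3⟩ := kst_step h0 hQ (hP.trans e3) hd M (by nlinarith)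
  refine ⟨P' \ B, sdiff_subset.trans (p1.trans hPQ), B, b1, sdiff_disjoint, ?_, b2.ge,
    fun a ha => p3 a (mem_sdiff.1 ha).1⟩
  have e5 := le_card_sdiff B P'
  have e6 : (2 * M : ℝ) ≤ P'.card := by nlinarith
  have e7 : 2 * M ≤ P'.card := by exact_mod_cast e6
  omega

end Pool.Agent.P.MP_39eed7_co
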