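import Pool.Agent.P.MP_39eed7_co.Defs

/-! Sets without a valid subset of size `k+2`. -/

set_option autoImplicit false
set_option linter.unusedSectionVars false

open Finset

namespace Pool.Agent.P.MP_39eed7_co

variable {V : Type} [DecidableEq V] {k : ℕ} {G H F : SimpleGraph V} {S X : Finset V} {v : V}

lemma dg_compl (h : v ∈ X) : dg G X v + dg Gᶜ X v + 1 = X.card := by
  have h1 : Disjoint (nb G X v) (nb Gᶜ X v) := by
    rw [disjoint_left]
    intro w h1 h2
    exact (mem_nb.1 h2).2.2 (mem_nb.1 h1).2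
  have h2 : nb G X v ∪ nb Gᶜ X v = X.erase v := by
    ext w
    simp only [mem_union, mem_nb, SimpleGraph.compl_adj, mem_erase]
    constructor
    · rintro (h | h)
      · exact ⟨h.2.ne', h.1⟩
      · exact ⟨h.2.1.symm, h.1⟩
    · rintro ⟨h1, h2⟩
      by_cases h3 : G.Adj v w
      · exact Or.inl ⟨h2, h3⟩
      · exact Or.inr ⟨h2, h1.symm, h3⟩
  unfold dg
  rw [← card_union_of_disjoint h1, h2, card_erase_add_one h]

lemma E2_compl : E2 G X + E2 Gᶜ X + X.card = X.card * X.card := by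
  unfold E2
  rw [← sum_add_distrib, card_eq_sum_ones X, ← sum_add_distrib, ← card_eq_sum_ones,
    sum_congr rfl fun v hv => dg_compl hv]
  simp

lemma E2_even (G : SimpleGraph V) (X : Finset V) : Even (E2 G X) := by
  induction X using Finset.induction_on with
  | empty => simp [E2]
  | insert v X hv ih => rw [E2_insert hv]; exact ih.add (even_two_mul _)

/-- no isolated vertex -/
def Closed (F : SimpleGraph V) (S : Finset V) : Prop := ∀ v ∈ S, ∃ w ∈ S, F.Adj v w

lemma Closed.insert {w : V} (h : Closed F S) (hw : w ∈ S) (a : F.Adj v w) :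
    Closed F (insert v S) := by
  intro x hx
  rcases mem_insert.1 hx with rfl | hx
  · exact ⟨w, mem_insert_of_mem hw, a⟩
  · obtain ⟨y, hy, h⟩ := h x hx
    exact ⟨y, mem_insert_of_mem hy, h⟩

lemma Closed.insert2 {w : V} (h : Closed F S) (a : F.Adj v w) :
    Closed F (Insert.insert v (Insert.insert w S)) := by
  intro x hx
  simp only [mem_insert] at hx
  rcases hx with rfl | rfl | hx
  · exact ⟨w, by simp, a⟩
  · exact ⟨v, by simp, a.symm⟩
  · obtain ⟨y, hy, h⟩ := h x hx
    exact ⟨y, by simp [hy], h⟩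

lemma closed_path {N : Finset V} (hN : Closed F N) {a b c : V} (ha : a ∈ N) (hb : b ∈ N)
    (hc : c ∈ N) (h1 : F.Adj a b) (h2 : F.Adj a c) (hbc : b ≠ c) (j : ℕ) :
    j + 2 ≤ N.card → ∃ S ⊆ N, ∃ x ∈ N, x ∉ S ∧ Closed F S ∧ Closed F (insert x S) ∧
      (S.card = j + 2 ∨ S.card + 1 = j + 2) := by
  induction j with
  | zero =>
    intro _
    have h0 : Closed F {a, b} := Closed.insert2 (S := ∅) (by simp [Closed]) h1
    refine ⟨{a, b}, by simp [insert_subset_iff, ha, hb], c, hc, ?_, h0,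
      h0.insert (by simp) h2.symm, Or.inl (card_pair h1.ne)⟩
    simp [h2.ne', hbc.symm]
  | succ j ih =>
    intro hj
    obtain ⟨S, s1, x, x1, x2, c1, c2, e | e⟩ := ih (by omega)
    · exact ⟨S, s1, x, x1, x2, c1, c2, Or.inr (by omega)⟩
    · have hlt : (insert x S).card < N.card := by rw [card_insert_of_notMem x2]; omega
      obtain ⟨v, v1, v2⟩ := exists_mem_notMem_of_card_lt_card hlt
      obtain ⟨w, w1, w2⟩ := hN v v1
      by_cases hw : w ∈ insert x S
      · exact ⟨insert x S, insert_subset x1 s1, v, v1, v2, c2, c2.insert hw w2,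
          Or.inr (by rw [card_insert_of_notMem x2]; omega)⟩
      · simp only [mem_insert, not_or] at v2 hw
        refine ⟨insert v (insert w S), insert_subset v1 (insert_subset w1 s1), x, x1, ?_,
          c1.insert2 w2, ?_, Or.inl ?_⟩
        · simp only [mem_insert, not_or]
          exact ⟨Ne.symm v2.1, Ne.symm hw.1, x2⟩
        · obtain ⟨y, y1, y2⟩ := c2 x (by simp)
          refine (c1.insert2 w2).insert (w := y) ?_ y2
          rcases mem_insert.1 y1 with rfl | y1
          · exact absurd y2 F.irrefl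
          · simp [y1]
        · rw [card_insert_of_notMem (by simp [w2.ne, v2.2]), card_insert_of_notMem hw.2]
          omega

lemma closed_matching {N : Finset V} (hN : Closed F N) (h1 : ∀ v ∈ N, dg F N v ≤ 1) (j : ℕ) :
    2 * j ≤ N.card → ∃ S ⊆ N, Closed F S ∧ S.card = 2 * j := by
  induction j with
  | zero => exact fun _ => ⟨∅, by simp, by simp [Closed], rfl⟩
  | succ j ih =>
    intro hj
    obtain ⟨S, s1, c1, e⟩ := ih (by omega)
    obtain ⟨v, v1, v2⟩ := exists_mem_notMem_of_card_lt_card (show S.card < N.card by omega)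
    obtain ⟨w, w1, w2⟩ := hN v v1
    have hw : w ∉ S := by
      intro hw
      obtain ⟨y, y1, y2⟩ := c1 w hw
      have := card_le_one.1 (h1 w w1) v (mem_nb.2 ⟨v1, w2.symm⟩) y (mem_nb.2 ⟨s1 y1, y2⟩)
      exact v2 (this ▸ y1)
    refine ⟨insert v (insert w S), insert_subset v1 (insert_subset w1 s1), c1.insert2 w2, ?_⟩
    rw [card_insert_of_notMem (by simp [w2.ne, v2]), card_insert_of_notMem hw]
    omega

lemma closed_or (k : ℕ) (F : SimpleGraph V) (X : Finset V) :
    (∃ S ⊆ X, S.card = k + 2 ∧ Closed F S) ∨ E2 F X ≤ k * (k + 1) ∨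
      (Odd k ∧ E2 F X ≤ X.card) := by
  set N := X.filter fun v => dg F X v ≠ 0 with hN
  have hNX : N ⊆ X := filter_subset _ _
  have hnb : ∀ v ∈ X, nb F X v = nb F N v := by
    intro v hv
    refine Subset.antisymm (fun w hw => ?_) (nb_mono hNX)
    rw [mem_nb] at hw ⊢
    exact ⟨mem_filter.2 ⟨hw.1, fun h => dg_eq_zero.1 h v hv hw.2.symm⟩, hw.2⟩
  have hc : Closed F N := by
    intro v hv
    rw [mem_filter] at hv
    obtain ⟨w, hw⟩ := card_ne_zero.1 hv.2
    rw [hnb v hv.1, mem_nb] at hw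
    exact ⟨w, hw.1, hw.2⟩
  by_cases hcard : N.card ≤ k + 1
  · refine Or.inr (Or.inl ?_)
    calc E2 F X = ∑ v ∈ N, dg F X v := (sum_filter_ne_zero X).symm
      _ ≤ ∑ _v ∈ N, k := sum_le_sum fun v hv => by
          have := dg_lt_card (G := F) hv
          unfold dg at this ⊢
          rw [hnb v (hNX hv)]
          omega
      _ ≤ _ := by rw [sum_const, smul_eq_mul, mul_comm]; exact Nat.mul_le_mul_left _ hcard
  by_cases h1 : ∀ v ∈ X, dg F X v ≤ 1
  · rcases Nat.even_or_odd k with ⟨j, hj⟩ | hk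
    · obtain ⟨S, s1, s2, s3⟩ := closed_matching hc
        (fun v hv => (dg_mono hNX).trans (h1 v (hNX hv))) (j + 1) (by omega)
      exact Or.inl ⟨S, s1.trans hNX, by omega, s2⟩
    · refine Or.inr (Or.inr ⟨hk, ?_⟩)
      rw [card_eq_sum_ones]
      exact sum_le_sum h1
  · push Not at h1
    obtain ⟨a, ha, h1⟩ := h1
    have haN : a ∈ N := mem_filter.2 ⟨ha, by omega⟩
    unfold dg at h1
    rw [hnb a ha] at h1
    obtain ⟨b, hb, c, hc', hbc⟩ := one_lt_card.1 h1
    rw [mem_nb] at hb hc'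
    obtain ⟨S, s1, x, x1, x2, c1, c2, e | e⟩ :=
      closed_path hc haN hb.1 hc'.1 hb.2 hc'.2 hbc k (by omega)
    · exact Or.inl ⟨S, s1.trans hNX, e, c1⟩
    · exact Or.inl ⟨insert x S, (insert_subset x1 s1).trans hNX,
        by rw [card_insert_of_notMem x2, e], c2⟩

lemma valid_of_closed (hc : Closed Gᶜ S) (hS : S.card = k + 2)
    (hH : ∀ v ∈ S, ∀ w ∈ S, ¬ H.Adj v w) : Valid k G H S := by
  refine ⟨fun v hv => ?_, hH⟩
  have h1 := dg_compl (G := G) hv
  obtain ⟨w, hw, a⟩ := hc v hv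
  have h2 : dg Gᶜ S v ≠ 0 := fun h => dg_eq_zero.1 h w hw a
  omega

open Classical in
lemma star_bound (hX : ∀ S ⊆ X, Valid k G H S → S.card ≤ k + 1) (hv : v ∈ X) :
    ((nb (G ⊔ H)ᶜ X v).filter fun u => dg H X u ≤ dg H X v).card ≤ k * (dg H X v + 1) := by
  by_contra h
  obtain ⟨T, t1, t2, t3⟩ := exists_indep H (dg H X v) k _
    (fun b hb => (dg_mono ((filter_subset _ _).trans nb_subset)).trans (mem_filter.1 hb).2)
    (not_le.1 h)
  have hT : ∀ u ∈ T, u ∈ X ∧ v ≠ u ∧ ¬ G.Adj v u ∧ ¬ H.Adj v u := by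
    intro u hu
    have := (mem_filter.1 (t1 hu)).1
    simpa only [mem_nb, SimpleGraph.compl_adj, SimpleGraph.sup_adj, not_or] using this
  have hvT : v ∉ T := fun h => (hT v h).2.1 rfl
  have hcard : (insert v T).card = k + 2 := by rw [card_insert_of_notMem hvT, t2]
  obtain ⟨u0, hu0⟩ := card_pos.1 (show 0 < T.card by omega)
  have := hX (insert v T) (insert_subset hv fun u hu => (hT u hu).1) (valid_of_closed (by
    intro x hx
    rcases mem_insert.1 hx with e | hx
    · exact ⟨u0, mem_insert_of_mem hu0, e ▸ ⟨(hT u0 hu0).2.1, (hT u0 hu0).2.2.1⟩⟩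
    · exact ⟨v, mem_insert_self _ _, (hT x hx).2.1.symm, fun a => (hT x hx).2.2.1 a.symm⟩)
    hcard (by
    intro x hx y hy
    rcases mem_insert.1 hx with e | hx <;> rcases mem_insert.1 hy with e' | hy
    · rw [e, e']; exact H.irrefl
    · rw [e]; exact (hT y hy).2.2.2
    · rw [e']; exact fun a => (hT x hx).2.2.2 a.symm
    · exact t3 x hx y hy))
  omega

lemma compl_bound (hX : ∀ S ⊆ X, Valid k G H S → S.card ≤ k + 1) :
    E2 Gᶜ X ≤ E2 Gᶜ (X.filter fun v => dg H X v = 0) + (4 * k + 1) * E2 H X := by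
  classical
  set X0 := X.filter fun v => dg H X v = 0 with hX0
  set r : V → V → ℕ := fun v u =>
    if dg H X v ≠ 0 ∧ (G ⊔ H)ᶜ.Adj v u ∧ dg H X u ≤ dg H X v then 1 else 0 with hr
  have h1 : ∀ v ∈ X, ∑ u ∈ X, r v u ≤ 2 * k * dg H X v := by
    intro v hv
    by_cases h0 : dg H X v = 0
    · simp [hr, h0]
    · have h2 := star_bound hX hv
      have h3 : ∑ u ∈ X, r v u
          = ((nb (G ⊔ H)ᶜ X v).filter fun u => dg H X u ≤ dg H X v).card := by
        rw [nb, filter_filter, card_filter]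
        exact sum_congr rfl fun u _ => by
          simp only [hr, h0, ne_eq, not_false_eq_true, true_and]
          congr
      have h4 : 1 ≤ dg H X v := Nat.one_le_iff_ne_zero.2 h0
      nlinarith
  have h2 : ∑ v ∈ X, ∑ u ∈ X, r v u ≤ 2 * k * E2 H X := by
    rw [E2, mul_sum]
    exact sum_le_sum h1
  have h3 : E2 Gᶜ X0 = ∑ v ∈ X, ∑ u ∈ X,
      if dg H X v = 0 ∧ dg H X u = 0 ∧ Gᶜ.Adj v u then 1 else 0 := by
    rw [E2, hX0, sum_filter]
    refine sum_congr rfl fun v _ => ?_
    split_ifs with h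
    · rw [dg_eq_sum, sum_filter]
      refine sum_congr rfl fun u _ => ?_
      by_cases h' : dg H X u = 0 <;> simp [h, h']
    · simp [h]
  have h4 : E2 Gᶜ X ≤ ∑ v ∈ X, ∑ u ∈ X,
      ((if dg H X v = 0 ∧ dg H X u = 0 ∧ Gᶜ.Adj v u then 1 else 0) +
        (if H.Adj v u then 1 else 0) + r v u + r u v) := by
    refine sum_le_sum fun v _ => ?_
    rw [dg_eq_sum]
    refine sum_le_sum fun u _ => ?_
    by_cases a : Gᶜ.Adj v u
    · rw [if_pos a]
      by_cases b : H.Adj v u
      · rw [if_pos b]; omega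
      have c : (G ⊔ H)ᶜ.Adj v u := ⟨a.1, fun h => h.elim a.2 b⟩
      by_cases d : dg H X v = 0 ∧ dg H X u = 0
      · rw [if_pos ⟨d.1, d.2, a⟩]; omega
      rcases le_total (dg H X u) (dg H X v) with e | e
      · have : r v u = 1 := if_pos ⟨by omega, c, e⟩
        omega
      · have : r u v = 1 := if_pos ⟨by omega, c.symm, e⟩
        omega
    · rw [if_neg a]; exact Nat.zero_le _
  simp only [sum_add_distrib] at h4
  rw [sum_comm (f := fun v u => r u v), ← h3] at h4
  have h5 : ∑ v ∈ X, ∑ u ∈ X, (if H.Adj v u then 1 else 0) = E2 H X :=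
    sum_congr rfl fun v _ => dg_eq_sum.symm
  rw [h5] at h4
  nlinarith

theorem inner {m g c : ℕ} (hc : 4 * k + 1 ≤ c) (hg1 : k * (k + 1) ≤ g)
    (hg2 : Odd k → Even m ∧ m ≤ g) (hX : ∀ S ⊆ X, Valid k G H S → S.card ≤ k + 1) :
    2 * m * X.card ≤ E2 G X + c * E2 H X + (m * (m + 1) + g) := by
  have h1 := compl_bound hX
  set X0 := X.filter fun v => dg H X v = 0 with hX0
  have hs : X0 ⊆ X := filter_subset _ _
  have h2 := E2_compl (G := G) (X := X)
  have h3 := Nat.mul_le_mul_right (E2 H X) hc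
  have h4 : (E2 Gᶜ X0 : ℤ) ≤ g + (X.card - m) * (X.card - m - 1) := by
    have h0 : (0 : ℤ) ≤ (X.card - m) * (X.card - m - 1) := by
      rcases le_or_gt (X.card - m : ℤ) 0 with h | h
      · exact mul_nonneg_of_nonpos_of_nonpos h (by linarith)
      · exact mul_nonneg h.le (by linarith)
    rcases closed_or k Gᶜ X0 with ⟨S, s1, s2, s3⟩ | h | ⟨hk, h⟩
    · have := hX S (s1.trans hs) (valid_of_closed s3 s2 fun v hv w hw =>
        dg_eq_zero.1 (mem_filter.1 (s1 hv)).2 w (hs (s1 hw)))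
      omega
    · have : (E2 Gᶜ X0 : ℤ) ≤ g := by exact_mod_cast h.trans hg1
      linarith
    · obtain ⟨⟨a, ha⟩, hm⟩ := hg2 hk
      obtain ⟨b, hb⟩ := E2_even Gᶜ X0
      have h5 := card_le_card hs
      rcases le_or_gt X.card (m + 1) with h6 | h6
      · have : (E2 Gᶜ X0 : ℤ) ≤ g := by
          have : E2 Gᶜ X0 ≤ g := by omega
          exact_mod_cast this
        linarith
      · have h7 : (E2 Gᶜ X0 : ℤ) ≤ X.card := by exact_mod_cast h.trans h5
        have h8 : (m : ℤ) + 2 ≤ X.card := by exact_mod_cast h6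
        have h9 : (m : ℤ) ≤ g := by exact_mod_cast hm
        nlinarith
  zify at h1 h2 h3 ⊢
  nlinarith

end Pool.Agent.P.MP_39eed7_co
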