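import Pool.Agent.P.MP_39eed7_co.Struct

/-! The sharp inequality for large `m` and the extremal graphs. -/

set_option autoImplicit false
set_option linter.unusedSectionVars false

open Finset

namespace Pool.Agent.P.MP_39eed7_co

variable {V : Type} [DecidableEq V] {k : ℕ} {G H : SimpleGraph V}

lemma fail_bound {U : Finset V} {m g t : ℕ} (ht : t ≤ m)
    (h : ¬ Ineq k m (m * (m + 1) + g) (4 * k + 2) G H U) :
    ((k : ℝ) + 1) * E2 H U + al k G H U * (2 * m * t - t ^ 2 - 2 * k * m) ≤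
      2 * (k + 1) * t * U.card := by
  obtain ⟨m', rfl⟩ := Nat.exists_eq_add_of_le ht
  have h1 := crude k G H m' U
  unfold Ineq at h h1
  have h2 : 2 * ((k : ℝ) + 1) * m' * U.card ≤ (k + 1) * (E2 G U + (k + 1) * E2 H U) +
      al k G H U * (m' * (m' + 1) + 2 * k * m') := by exact_mod_cast h1
  have h3 : ((k : ℝ) + 1) * (E2 G U + (4 * k + 2) * E2 H U) +
      al k G H U * ((t + m') * (t + m' + 1) + g) ≤ 2 * (k + 1) * (t + m') * U.card := by
    exact_mod_cast (not_le.1 h).le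
  have e1 : (0 : ℝ) ≤ (k + 1) * k * E2 H U := by positivity
  have e2 : (0 : ℝ) ≤ al k G H U * (g + t + 2 * k * t) := by positivity
  push_cast
  nlinarith

theorem sharp (k : ℕ) : ∃ m0 : ℕ, ∀ m ≥ m0, ∀ g : ℕ, k * (k + 1) ≤ g →
    (Odd k → Even m ∧ m ≤ g) → ∀ (V : Type) [DecidableEq V] (G : SimpleGraph V) (U : Finset V)
      (H : SimpleGraph V), Ineq k m (m * (m + 1) + g) (4 * k + 2) G H U := by
  rcases Nat.eq_zero_or_pos k with rfl | hk
  · refine ⟨0, fun m _ g _ _ V _ G U H => ?_⟩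
    have := crude 0 G H m U
    unfold Ineq at this ⊢
    nlinarith [Nat.zero_le (E2 H U), Nat.zero_le (al 0 G H U * g)]
  obtain ⟨κ, h0, m1, hm1⟩ := remove k (4 * k + 2) le_rfl
  obtain ⟨ε0, e0, m2, hm2⟩ := struct k (4 * k + 2) (by omega) (κ := min κ 1) (C := 4 * k)
    (lt_min h0 one_pos) (min_le_right _ _)
  set ε := min ε0 1 with hε
  have e1 : 0 < ε := lt_min e0 one_pos
  have e2 : ε ≤ 1 := min_le_right _ _
  have e3 : ε ≤ ε0 := min_le_left _ _
  set t := ⌈4 * k / ε⌉₊ with ht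
  have k1 : (1 : ℝ) ≤ k := by exact_mod_cast hk
  have t1 : 4 * k ≤ t * ε := (div_le_iff₀ e1).1 (Nat.le_ceil _)
  have t0 : (0 : ℝ) < t := by
    have : (0 : ℝ) ≤ t := Nat.cast_nonneg _
    nlinarith
  refine ⟨m1 + m2 + t + 2 * k + ⌈2 * t / ε⌉₊, fun m hm g g1 g2 V _ G U => ?_⟩
  have t2 : 2 * (t : ℝ) ≤ m * ε := (div_le_iff₀ e1).1 (Nat.ceil_le.1 (show _ ≤ m by omega))
  have t3 : 2 * (k : ℝ) ≤ m := by exact_mod_cast (show 2 * k ≤ m by omega)
  induction U using Finset.strongInduction with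
  | H U ih =>
    intro H
    by_cases h : ∃ v ∈ U, m ≤ dg G U v + (4 * k + 2) * dg H U v
    · obtain ⟨v, hv, h⟩ := h
      have h1 := ih _ (erase_ssubset hv) H
      have h2 := al_mono (k := k) (G := G) (H := H) (erase_subset v U)
      have h3 := card_erase_add_one hv
      unfold Ineq at h1 ⊢
      rw [E2_erase (G := G) hv, E2_erase (G := H) hv, ← h3]
      have h4 := Nat.mul_le_mul_right (m * (m + 1) + g) h2
      have h5 := Nat.mul_le_mul_left (2 * (k + 1)) h
      nlinarith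
    push Not at h
    by_contra hn
    have hU : U.Nonempty := by
      rw [nonempty_iff_ne_empty]
      rintro rfl
      simp [Ineq] at hn
    have a0 : (0 : ℝ) ≤ al k G H U := Nat.cast_nonneg _
    have n0 : (0 : ℝ) ≤ U.card := Nat.cast_nonneg _
    have f1 := fail_bound (t := 2 * k) (by omega) hn
    have f2 := fail_bound (t := t) (by omega) hn
    have f3 : (E2 H U : ℝ) ≤ 4 * k * U.card := by
      have : (0 : ℝ) ≤ al k G H U * (2 * k * (m - 2 * k)) :=
        mul_nonneg a0 (mul_nonneg (by positivity) (by linarith))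
      push_cast at f1
      refine le_of_mul_le_mul_left (a := (k : ℝ) + 1) ?_ (by positivity)
      nlinarith
    have f4 : m * (al k G H U : ℝ) ≤ (1 + ε0) * (k + 1) * U.card := by
      have m0 : (0 : ℝ) ≤ m := Nat.cast_nonneg _
      have b1 : 2 * m * t * (1 - ε / 2) ≤ 2 * m * t - t ^ 2 - 2 * k * (m : ℝ) := by
        have c1 := mul_le_mul_of_nonneg_left t1 m0
        have c2 := mul_le_mul_of_nonneg_left t2 t0.le
        nlinarith
      have b2 := mul_le_mul_of_nonneg_left b1 a0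
      have b3 : (0 : ℝ) ≤ (k + 1) * E2 H U := by positivity
      have b4 : (1 - ε / 2) * (m * al k G H U) ≤ (k + 1) * U.card := by
        refine le_of_mul_le_mul_left (a := 2 * (t : ℝ)) ?_ (by positivity)
        nlinarith
      have b5 : 1 ≤ (1 + ε) * (1 - ε / 2) := by nlinarith
      calc m * (al k G H U : ℝ) ≤ (1 + ε) * (1 - ε / 2) * (m * al k G H U) :=
            le_mul_of_one_le_left (by positivity) b5
        _ = (1 + ε) * ((1 - ε / 2) * (m * al k G H U)) := by ring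
        _ ≤ (1 + ε) * ((k + 1) * U.card) := by gcongr
        _ ≤ (1 + ε0) * ((k + 1) * U.card) := by gcongr
        _ = _ := by ring
    obtain ⟨Q, q1, q2, q3, q4⟩ := hm2 m (by omega) V G H U hU (fun v hv => (h v hv).le) f4 f3
    refine hn (hm1 m (by omega) g g1 g2 V G H U Q q1 q2 q3 (fun q hq => le_trans ?_ (q4 q hq))
      (fun v hv => (h v hv).le) ih)
    gcongr
    exact min_le_left _ _

/-- disjoint union of initial segments of a graph on the natural numbers -/
def blocks (F : SimpleGraph ℕ) {I : Type} (sz : I → ℕ) : SimpleGraph (Σ i : I, Fin (sz i)) where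
  Adj x y := x.1 = y.1 ∧ F.Adj x.2 y.2
  symm := ⟨fun _ _ h => ⟨h.1.symm, h.2.symm⟩⟩
  loopless := ⟨fun _ h => F.irrefl h.2⟩

lemma sigma_eq {I : Type} {sz : I → ℕ} {x y : Σ i : I, Fin (sz i)} (h : x.1 = y.1)
    (h' : (x.2 : ℕ) = y.2) : x = y := by
  obtain ⟨i, x⟩ := x
  obtain ⟨j, y⟩ := y
  cases h
  exact congrArg _ (Fin.ext h')

lemma E2_blocks (F : SimpleGraph ℕ) {I : Type} [Fintype I] [DecidableEq I] (sz : I → ℕ) :
    E2 (blocks F sz) univ ≤ ∑ i, E2 F (range (sz i)) := by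
  unfold E2
  rw [Fintype.sum_sigma]
  refine sum_le_sum fun i _ => ?_
  rw [← Fin.sum_univ_eq_sum_range (fun y => dg F (range (sz i)) y)]
  refine sum_le_sum fun y _ => card_le_card_of_injOn (fun x => (x.2 : ℕ)) (fun x hx => ?_)
    fun x hx x' hx' e => ?_
  · have := (mem_nb.1 hx).2
    refine mem_coe.2 (mem_nb.2 ⟨mem_range.2 ?_, this.2⟩)
    have e : i = x.1 := this.1
    rw [e]
    exact x.2.2
  · exact sigma_eq ((mem_nb.1 hx).2.1.symm.trans (mem_nb.1 hx').2.1) e

lemma al_blocks {F : SimpleGraph ℕ} (hF : ∀ S, Valid k F ⊥ S → S.card ≤ k + 1) {I : Type}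
    [Fintype I] [DecidableEq I] (sz : I → ℕ) :
    al k (blocks F sz) ⊥ univ ≤ (k + 1) * Fintype.card I := by
  obtain ⟨S, -, h1, h2⟩ := exists_al k (blocks F sz) ⊥ univ
  rw [← h2]
  refine card_le_mul_card_image_of_maps_to (f := fun x => x.1) (t := univ) (fun _ _ => mem_univ _)
    _ fun i _ => ?_
  rw [← card_image_of_injOn (f := fun x => (x.2 : ℕ)) fun x hx y hy e =>
    sigma_eq ((mem_filter.1 hx).2.trans (mem_filter.1 hy).2.symm) e]
  refine hF _ ⟨fun v hv => ?_, by simp⟩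
  obtain ⟨x, hx, rfl⟩ := mem_image.1 hv
  refine le_trans ?_ (h1.1 x (mem_filter.1 hx).1)
  refine le_trans (card_le_card fun w hw => ?_) (card_image_le (f := fun x => (x.2 : ℕ)))
  obtain ⟨y, hy, rfl⟩ := mem_image.1 (mem_nb.1 hw).1
  exact mem_image.2 ⟨y, mem_nb.2 ⟨(mem_filter.1 hy).1,
    (mem_filter.1 hx).2.trans (mem_filter.1 hy).2.symm, (mem_nb.1 hw).2⟩, rfl⟩

/-- complete graph minus the clique on `0, ..., k` -/
def F1 (k : ℕ) : SimpleGraph ℕ where
  Adj x y := x ≠ y ∧ (k < x ∨ k < y)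
  symm := ⟨fun _ _ h => ⟨h.1.symm, h.2.symm⟩⟩
  loopless := ⟨fun _ h => h.1 rfl⟩

/-- cocktail party graph -/
def F2 : SimpleGraph ℕ where
  Adj x y := x / 2 ≠ y / 2
  symm := ⟨fun _ _ h => h.symm⟩
  loopless := ⟨fun _ h => h rfl⟩

lemma F1_al (S : Finset ℕ) (h : Valid k (F1 k) ⊥ S) : S.card ≤ k + 1 := by
  by_cases h1 : ∃ v ∈ S, k < v
  · obtain ⟨v, hv, h1⟩ := h1
    have h2 : (S.erase v).card ≤ dg (F1 k) S v := card_le_card fun w hw =>
      mem_nb.2 ⟨(mem_erase.1 hw).2, (mem_erase.1 hw).1.symm, Or.inl h1⟩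
    have h3 := h.1 v hv
    have h4 := card_erase_add_one hv
    omega
  · push Not at h1
    rw [← card_range (k + 1)]
    exact card_le_card fun v hv => mem_range.2 (Nat.lt_succ_of_le (h1 v hv))

lemma F1_E2 {p : ℕ} (hp : k + 1 ≤ p) : E2 (F1 k) (range p) + k * (k + 1) + p ≤ p * p := by
  have h1 := E2_compl (G := F1 k) (X := range p)
  have h2 := E2_compl (G := F1 k) (X := range (k + 1))
  have h3 : E2 (F1 k) (range (k + 1)) = 0 := sum_eq_zero fun v hv => dg_eq_zero.2
    fun w hw a => by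
      rw [mem_range] at hv hw
      have := a.2
      omega
  have h4 : E2 (F1 k)ᶜ (range (k + 1)) ≤ E2 (F1 k)ᶜ (range p) := E2_mono (range_mono hp)
  rw [card_range] at h1 h2
  nlinarith

lemma F2_al (hk : Odd k) (S : Finset ℕ) (h : Valid k F2 ⊥ S) : S.card ≤ k + 1 := by
  by_contra hn
  obtain ⟨T, t1, t2⟩ := exists_subset_card_eq (show k + 2 ≤ S.card by omega)
  have h1 : ∀ v ∈ T, dg F2ᶜ T v = 1 := by
    intro v hv
    have e1 := dg_compl (G := F2) hv
    have e2 := (h.mono t1).1 v hv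
    have e3 : dg F2ᶜ T v ≤ 1 := card_le_one.2 fun x hx y hy => by
      have a := (mem_nb.1 hx).2
      have b := (mem_nb.1 hy).2
      simp only [SimpleGraph.compl_adj, F2, not_not] at a b
      omega
    omega
  have h2 := E2_even F2ᶜ T
  rw [E2, sum_congr rfl h1, ← card_eq_sum_ones, t2] at h2
  obtain ⟨a, ha⟩ := hk
  obtain ⟨b, hb⟩ := h2
  omega

lemma F2_E2 {p : ℕ} (hp : Even p) : E2 F2 (range p) + 2 * p ≤ p * p := by
  have h1 := E2_compl (G := F2) (X := range p)
  have h2 : ∑ _v ∈ range p, 1 ≤ E2 F2ᶜ (range p) := by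
    refine sum_le_sum fun v hv => card_pos.2 ⟨if v % 2 = 0 then v + 1 else v - 1, ?_⟩
    obtain ⟨a, ha⟩ := hp
    simp only [mem_nb, mem_range, SimpleGraph.compl_adj, F2, not_not] at hv ⊢
    split_ifs <;> omega
  rw [← card_eq_sum_ones] at h2
  rw [card_range] at h1 h2
  omega

/-- `a` blocks of size `p` and `b` blocks of size `q` -/
lemma exists_two {F : SimpleGraph ℕ} (hF : ∀ S, Valid k F ⊥ S → S.card ≤ k + 1) (a p b q : ℕ) :
    ∃ (V : Type) (_ : Fintype V) (_ : DecidableEq V) (G : SimpleGraph V),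
      Fintype.card V = a * p + b * q ∧ E2 G univ ≤ a * E2 F (range p) + b * E2 F (range q) ∧
        al k G ⊥ univ ≤ (k + 1) * (a + b) := by
  refine ⟨_, inferInstance, inferInstance,
    blocks F (I := Fin a ⊕ Fin b) (Sum.elim (fun _ => p) fun _ => q), ?_, ?_, ?_⟩
  · simp [Fintype.card_sigma, Fintype.sum_sum_type]
  · simpa [Fintype.sum_sum_type] using
      E2_blocks F (I := Fin a ⊕ Fin b) (Sum.elim (fun _ => p) fun _ => q)
  · simpa using al_blocks hF (I := Fin a ⊕ Fin b) (Sum.elim (fun _ => p) fun _ => q)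

end Pool.Agent.P.MP_39eed7_co
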