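import Pool.Agent.P.MP_39eed7_co.Select

/-! Removing a near-clique. -/

set_option autoImplicit false
set_option linter.unusedSectionVars false

open Finset

namespace Pool.Agent.P.MP_39eed7_co

variable {V : Type} [DecidableEq V]

lemma sum_le_card_mul {A : Finset V} {f : V → ℝ} {x : ℝ} (h : ∀ a ∈ A, f a ≤ x) :
    ∑ a ∈ A, f a ≤ A.card * x := by
  rw [← nsmul_eq_mul, ← sum_const]
  exact sum_le_sum h

lemma card_mul_le_sum {A : Finset V} {f : V → ℝ} {x : ℝ} (h : ∀ a ∈ A, x ≤ f a) :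
    A.card * x ≤ ∑ a ∈ A, f a := by
  rw [← nsmul_eq_mul, ← sum_const]
  exact sum_le_sum h

lemma card_biUnion_nb_le' {G : SimpleGraph V} {A U : Finset V} {x : ℝ}
    (h : ∀ a ∈ A, (dg G U a : ℝ) ≤ x) : ((A.biUnion (nb G U)).card : ℝ) ≤ A.card * x := by
  refine le_trans ?_ (sum_le_card_mul h)
  exact_mod_cast card_biUnion_le

theorem remove_core {k c m g j : ℕ} {β κ : ℝ} (hc : 4 * k + 2 ≤ c) (hβ0 : 0 < β)
    (hβ : β * (4 * (k + 1) * (k + 2)) = 1) (hκ0 : 0 ≤ κ)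
    (hκ : κ * (8 * c * ((k + 1 + j : ℕ) : ℝ) ^ 2) = β)
    (hj : (1 - β / 4 / 2) ^ j * (8 * (k + 1) * 2 ^ k) ≤ β)
    (hm : 8 * ((k + 1 + j : ℕ) : ℝ) ≤ β * m)
    (hg1 : k * (k + 1) ≤ g) (hg2 : Odd k → Even m ∧ m ≤ g)
    {G H : SimpleGraph V} {U Q : Finset V} (hQ : Q ⊆ U) (hne : Q.Nonempty) (hQm : Q.card ≤ m)
    (hQd : ∀ q ∈ Q, (1 - κ) * m ≤ dg (G ⊔ H) Q q) (hd : ∀ v ∈ U, dg G U v + c * dg H U v ≤ m)
    (ih : ∀ U' ⊂ U, ∀ H', Ineq k m (m * (m + 1) + g) c G H' U') :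
    Ineq k m (m * (m + 1) + g) c G H U := by
  classical
  set L := k + 1 + j with hL
  have hk0 : (0 : ℝ) ≤ k := Nat.cast_nonneg k
  have hL1 : (1 : ℝ) ≤ L := by exact_mod_cast (show 1 ≤ L by omega)
  have hc2 : (2 : ℝ) ≤ c := by exact_mod_cast (show 2 ≤ c by omega)
  have hβ8 : β ≤ 1 / 8 := by nlinarith [mul_nonneg hk0 hk0]
  have hκL : κ * L * 16 ≤ β := by
    have : (16 : ℝ) * L ≤ 8 * c * L ^ 2 := by nlinarith
    nlinarith
  have hκβ : κ * 16 ≤ β := by nlinarith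
  have hm0 : (0 : ℝ) < m := by
    by_contra h
    nlinarith
  have hQm' : (Q.card : ℝ) ≤ m := by exact_mod_cast hQm
  have hJ : ∀ v ∈ U, (dg (G ⊔ H) U v : ℝ) ≤ m := by
    intro v hv
    have h1 := hd v hv
    have h2 := dg_sup_le (G := G) (H := H) (A := U) (v := v)
    have h3 : dg H U v ≤ c * dg H U v := Nat.le_mul_of_pos_left _ (by omega)
    exact_mod_cast (show dg (G ⊔ H) U v ≤ m by omega)
  have hQH : ∀ q ∈ Q, (dg H U q : ℝ) ≤ κ * m := by
    intro q hq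
    have h1 : (dg G U q : ℝ) + c * dg H U q ≤ m := by exact_mod_cast hd q (hQ hq)
    have h2 : (dg (G ⊔ H) Q q : ℝ) ≤ dg G U q + dg H U q := by
      exact_mod_cast (dg_mono hQ).trans dg_sup_le
    have h3 := hQd q hq
    have h4 : (0 : ℝ) ≤ dg H U q := Nat.cast_nonneg _
    nlinarith
  have hQG : ∀ q ∈ Q, (1 - 2 * κ) * m ≤ dg G Q q := by
    intro q hq
    have h2 : (dg (G ⊔ H) Q q : ℝ) ≤ dg G Q q + dg H U q := by
      exact_mod_cast dg_sup_le.trans (Nat.add_le_add_left (dg_mono hQ) _)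
    linarith [hQd q hq, hQH q hq]
  have hQc : (1 - κ) * m ≤ Q.card := by
    obtain ⟨q, hq⟩ := hne
    refine (hQd q hq).trans ?_
    exact_mod_cast dg_le_card
  have hQo : ∀ q ∈ Q, (dg (G ⊔ H) (U \ Q) q : ℝ) ≤ κ * m := by
    intro q hq
    have h1 : (dg (G ⊔ H) (U \ Q) q : ℝ) + dg (G ⊔ H) Q q = dg (G ⊔ H) U q := by
      exact_mod_cast dg_sdiff hQ
    linarith [hQd q hq, hJ q (hQ hq)]
  set X := U.filter fun v => (1 - β) * m ≤ dg (G ⊔ H) Q v with hX
  have hXU : X ⊆ U := filter_subset _ _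
  have hQX : Q ⊆ X := fun q hq => mem_filter.2 ⟨hQ hq, le_trans (by nlinarith) (hQd q hq)⟩
  have hXo : ∀ x ∈ X, (dg (G ⊔ H) (U \ X) x : ℝ) ≤ β * m := by
    intro x hx
    have h1 : (dg (G ⊔ H) (U \ X) x : ℝ) + dg (G ⊔ H) X x = dg (G ⊔ H) U x := by
      exact_mod_cast dg_sdiff hXU
    have h2 : (dg (G ⊔ H) Q x : ℝ) ≤ dg (G ⊔ H) X x := by exact_mod_cast dg_mono hQX
    linarith [(mem_filter.1 hx).2, hJ x (hXU hx)]
  have hQo' : ∀ q ∈ Q, (dg (G ⊔ H) (U \ X) q : ℝ) ≤ κ * m := by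
    intro q hq
    refine le_trans ?_ (hQo q hq)
    exact_mod_cast dg_mono (sdiff_subset_sdiff Subset.rfl hQX)
  by_cases hA : ∀ S ⊆ X, Valid k G H S → S.card ≤ k + 1
  · have hin := inner (m := m) (by omega : 4 * k + 1 ≤ c) hg1 hg2 hA
    set C : ℝ := ∑ x ∈ X, (dg (G ⊔ H) (U \ X) x : ℝ) with hC
    have hC0 : 0 ≤ C := sum_nonneg fun _ _ => Nat.cast_nonneg _
    set P := Q.filter fun q => dg (G ⊔ H) (U \ X) q * (β * m / 4) ≤ C with hP
    have hPQ : P ⊆ Q := filter_subset _ _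
    have hPc : (Q.card : ℝ) - β * m / 4 ≤ P.card := by
      have h1 : ((Q \ P).card : ℝ) + P.card = Q.card := by
        exact_mod_cast card_sdiff_add_card_eq_card hPQ
      have h2 : ∀ q ∈ Q \ P, C < dg (G ⊔ H) (U \ X) q * (β * m / 4) := by
        intro q hq
        rw [mem_sdiff] at hq
        exact not_le.1 fun h => hq.2 (mem_filter.2 ⟨hq.1, h⟩)
      have h3 : ∑ q ∈ Q \ P, (dg (G ⊔ H) (U \ X) q : ℝ) ≤ C :=
        sum_le_sum_of_subset_of_nonneg (sdiff_subset.trans hQX) fun _ _ _ => Nat.cast_nonneg _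
      have h4 := card_mul_le_sum fun q hq => (h2 q hq).le
      rw [← sum_mul] at h4
      rcases (Q \ P).eq_empty_or_nonempty with h | ⟨q, hq⟩
      · rw [h, card_empty] at h1
        push_cast at h1
        nlinarith
      · have h5 : (dg (G ⊔ H) (U \ X) q : ℝ) ≤ C :=
          single_le_sum (f := fun x => (dg (G ⊔ H) (U \ X) x : ℝ))
            (fun _ _ => Nat.cast_nonneg _) (hQX (mem_sdiff.1 hq).1)
        have h6 : 0 < C := by
          by_contra h
          have h7 := h2 q hq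
          have : (dg (G ⊔ H) (U \ X) q : ℝ) * (β * m / 4) ≤ 0 :=
            mul_nonpos_of_nonpos_of_nonneg (by linarith) (by positivity)
          linarith
        have h7 : ((Q \ P).card : ℝ) * C ≤ (β * m / 4) * C := by
          refine h4.trans ?_
          rw [mul_comm]
          exact mul_le_mul_of_nonneg_left h3 (by positivity)
        have := le_of_mul_le_mul_right h7 h6
        linarith
    have hPm : (P.card : ℝ) ≤ m := le_trans (by exact_mod_cast card_le_card hPQ) hQm'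
    have hh : ∀ x ∈ P, (dg H P x : ℝ) ≤ κ * m := fun x hx =>
      le_trans (by exact_mod_cast dg_mono (hPQ.trans hQ)) (hQH x (hPQ hx))
    have hLt : (L : ℝ) * (κ * m + 1) ≤ β * m / 4 := by nlinarith
    have hPt : β * m / 4 < P.card := by nlinarith
    have hmiss : ∀ w ∈ U \ X, β * m / 4 + β / 4 * P.card ≤ (P \ nb (G ⊔ H) P w).card := by
      intro w hw
      rw [mem_sdiff] at hw
      have h1 : (dg (G ⊔ H) Q w : ℝ) < (1 - β) * m :=
        not_le.1 fun h => hw.2 (mem_filter.2 ⟨hw.1, h⟩)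
      have h2 : ((P \ nb (G ⊔ H) P w).card : ℝ) + dg (G ⊔ H) P w = P.card := by
        exact_mod_cast card_sdiff_add_card_eq_card nb_subset
      have h3 : (dg (G ⊔ H) P w : ℝ) ≤ dg (G ⊔ H) Q w := by exact_mod_cast dg_mono hPQ
      nlinarith
    obtain ⟨Y0, a1, -, a3, a4, -⟩ := select (J := G ⊔ H) (H := H) (W := ∅) (Y0 := ∅) (b := β / 4)
      hh (by positivity) hLt hPt (by positivity) (by linarith) (by simp) (empty_subset _)
      (by simp) (k + 1) (by simp [hL])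
    rw [card_empty, zero_add] at a3
    set W0 := Y0.biUnion (nb (G ⊔ H) (U \ X)) with hW0
    have hW0s : W0 ⊆ U \ X := biUnion_subset.2 fun _ _ => nb_subset
    obtain ⟨Y, b1, b2, b3, b4, b5⟩ := select (J := G ⊔ H) (H := H) (W := W0) (Y0 := Y0)
      (b := β / 4) hh (by positivity) hLt hPt (by positivity) (by linarith)
      (fun w hw => hmiss w (hW0s hw)) a1 a4 j (by omega)
    have hout : ∀ x ∈ P, (dg (G ⊔ H) (U \ X) x : ℝ) ≤ C / (β * m / 4) := fun x hx =>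
      (le_div_iff₀ (by positivity)).2 (mem_filter.1 hx).2
    have hW0c := card_biUnion_nb_le' fun x hx => hout x (a1 hx)
    rw [← hW0, a3] at hW0c
    set Bad := W0.filter fun w => (Y \ nb (G ⊔ H) Y w).card ≤ k with hBad
    have hBc : (Bad.card : ℝ) * (1 / 2) ^ k ≤ (1 - β / 4 / 2) ^ j * W0.card := by
      refine le_trans (card_mul_le_sum (f := fun w => (1 / 2 : ℝ) ^ (Y \ nb (G ⊔ H) Y w).card)
        fun w hw => pow_le_pow_of_le_one (by norm_num) (by norm_num) (mem_filter.1 hw).2) ?_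
      exact le_trans (sum_le_sum_of_subset_of_nonneg (filter_subset _ _)
        fun _ _ _ => by positivity) b5
    have hB2 : 2 * m * (Bad.card : ℝ) ≤ C := by
      have h1 : (Bad.card : ℝ) ≤ 2 ^ k * ((1 - β / 4 / 2) ^ j * W0.card) := by
        rw [one_div, inv_pow, ← div_eq_mul_inv, div_le_iff₀ (by positivity)] at hBc
        linarith
      have h2 : (0 : ℝ) ≤ (1 - β / 4 / 2) ^ j := pow_nonneg (by linarith) _
      have h3 : (W0.card : ℝ) * (β * m) ≤ 4 * (k + 1) * C := by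
        have : ((k + 1 : ℕ) : ℝ) * (C / (β * m / 4)) * (β * m) = 4 * (k + 1) * C := by
          push_cast
          field_simp
        rw [← this]
        exact mul_le_mul_of_nonneg_right hW0c (by positivity)
      have h4 : β * (2 * m * (Bad.card : ℝ)) ≤ β * C := by
        calc β * (2 * m * (Bad.card : ℝ))
            ≤ β * (2 * m * (2 ^ k * ((1 - β / 4 / 2) ^ j * W0.card))) := by gcongr
          _ = 2 * 2 ^ k * (1 - β / 4 / 2) ^ j * (W0.card * (β * m)) := by ring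
          _ ≤ 2 * 2 ^ k * (1 - β / 4 / 2) ^ j * (4 * (k + 1) * C) := by gcongr
          _ = (1 - β / 4 / 2) ^ j * (8 * (k + 1) * 2 ^ k) * C := by ring
          _ ≤ β * C := by gcongr
      exact le_of_mul_le_mul_left h4 hβ0
    have hYL : Y.card = L := by omega
    have hW1 := card_biUnion_nb_le' fun x hx => hout x (b1 hx)
    have hW2 := card_biUnion_nb_le' fun x hx => hQo' x (hPQ (b1 hx))
    rw [hYL] at hW1 hW2
    refine redB (Y := Y) (Bad := Bad) hXU ((b1.trans hPQ).trans hQX) (by omega) b4 (by omega)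
      (fun w hw => ?_) hin ?_ ih
    · rw [mem_sdiff] at hw
      by_cases h : w ∈ W0
      · exact not_le.1 fun h' => hw.2 (mem_filter.2 ⟨h, h'⟩)
      · rw [← a3]
        refine card_le_card fun y hy => mem_sdiff.2 ⟨b2 hy, fun h' => h ?_⟩
        exact mem_biUnion.2 ⟨y, hy, mem_nb.2 ⟨hw.1, (mem_nb.1 h').2.symm⟩⟩
    · have h1 : (c : ℝ) * (((Y.biUnion (nb (G ⊔ H) (U \ X))).card : ℝ) *
          (Y.biUnion (nb (G ⊔ H) (U \ X))).card) ≤ C := by
        calc _ ≤ (c : ℝ) * ((L * (C / (β * m / 4))) * (L * (κ * m))) := by gcongr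
          _ = κ * (8 * c * (L : ℝ) ^ 2) * C / (2 * β) := by field_simp; ring
          _ = C / 2 := by rw [hκ]; field_simp
          _ ≤ C := by linarith
      have h2 : 2 * m * (Bad.card : ℝ) + (c : ℝ) * (((Y.biUnion (nb (G ⊔ H) (U \ X))).card : ℝ) *
          (Y.biUnion (nb (G ⊔ H) (U \ X))).card) ≤ 2 * C := by linarith
      rw [hC] at h2
      exact_mod_cast h2
  · push Not at hA
    obtain ⟨S0, s1, s2, s3⟩ := hA
    obtain ⟨S, t1, t2⟩ := exists_subset_card_eq (show k + 2 ≤ S0.card by omega)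
    refine redA hXU (t1.trans s1) (s2.mono t1) t2 ?_ fun U' h => ih U' h H
    have hN := card_biUnion_nb_le' fun x hx => hXo x (s1 (t1 hx))
    rw [t2] at hN
    have hXc : (X.card : ℝ) ≤ (1 + 2 * κ) * m := by
      have h1 : ((X \ Q).card : ℝ) + Q.card = X.card := by
        exact_mod_cast card_sdiff_add_card_eq_card hQX
      have h2 := card_mul_le_sum (A := X \ Q) (f := fun v => (dg (G ⊔ H) Q v : ℝ))
        fun v hv => (mem_filter.1 (mem_sdiff.1 hv).1).2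
      have h3 : ∑ v ∈ X \ Q, (dg (G ⊔ H) Q v : ℝ) = ∑ q ∈ Q, (dg (G ⊔ H) (X \ Q) q : ℝ) := by
        exact_mod_cast sum_dg_comm (G ⊔ H) (X \ Q) Q
      have h4 := sum_le_card_mul (A := Q) (f := fun q => (dg (G ⊔ H) (X \ Q) q : ℝ)) (x := κ * m)
        fun q hq => le_trans (by exact_mod_cast dg_mono (sdiff_subset_sdiff hXU Subset.rfl))
          (hQo q hq)
      have h5 : (Q.card : ℝ) * (κ * m) ≤ m * (κ * m) := by gcongr
      have h6 : (0 : ℝ) ≤ (X \ Q).card := Nat.cast_nonneg _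
      have h7 : ((X \ Q).card : ℝ) * (m / 2) ≤ (X \ Q).card * ((1 - β) * m) := by
        gcongr
        nlinarith
      have h8 : m * ((X \ Q).card : ℝ) ≤ m * (2 * κ * m) := by linarith
      have := le_of_mul_le_mul_left h8 hm0
      linarith
    have hE : (1 - 3 * κ) * (m : ℝ) ^ 2 ≤ E2 G X := by
      have h1 : (E2 G Q : ℝ) ≤ E2 G X := by exact_mod_cast E2_mono hQX
      have h2 := card_mul_le_sum hQG
      have h3 : (E2 G Q : ℝ) = ∑ q ∈ Q, (dg G Q q : ℝ) := by simp [E2]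
      have h4 : (1 - κ) * m * ((1 - 2 * κ) * m) ≤ Q.card * ((1 - 2 * κ) * m) :=
        mul_le_mul_of_nonneg_right hQc (mul_nonneg (by linarith) hm0.le)
      nlinarith [mul_nonneg (sq_nonneg κ) (sq_nonneg (m : ℝ))]
    have h1 : 2 * ((k : ℝ) + 1) * m * (X.card + (S.biUnion (nb (G ⊔ H) (U \ X))).card)
        ≤ (k + 1) * E2 G X + (k + 2) * (m * (m + 1) + g) := by
      push_cast at hN
      have h2 : 7 * κ * (k + 1) ≤ 1 / 2 := by nlinarith
      have hg0 : (0 : ℝ) ≤ g := Nat.cast_nonneg _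
      calc _ ≤ 2 * ((k : ℝ) + 1) * m * ((1 + 2 * κ) * m + (k + 2) * (β * m)) := by gcongr
        _ = (2 * (k + 1) + 4 * κ * (k + 1) + β * (4 * (k + 1) * (k + 2)) / 2) * (m : ℝ) ^ 2 := by
            ring
        _ ≤ ((k + 1) * (1 - 3 * κ) + (k + 2)) * (m : ℝ) ^ 2 := by
            rw [hβ]
            exact mul_le_mul_of_nonneg_right (by linarith) (sq_nonneg _)
        _ = (k + 1) * ((1 - 3 * κ) * (m : ℝ) ^ 2) + (k + 2) * (m : ℝ) ^ 2 := by ring
        _ ≤ _ := by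
            gcongr
            nlinarith
    exact_mod_cast h1

theorem remove (k c : ℕ) (hc : 4 * k + 2 ≤ c) : ∃ κ : ℝ, 0 < κ ∧ ∃ m0 : ℕ, ∀ m ≥ m0, ∀ g : ℕ,
    k * (k + 1) ≤ g → (Odd k → Even m ∧ m ≤ g) → ∀ (V : Type) [DecidableEq V]
      (G H : SimpleGraph V) (U Q : Finset V), Q ⊆ U → Q.Nonempty → Q.card ≤ m →
      (∀ q ∈ Q, (1 - κ) * m ≤ dg (G ⊔ H) Q q) → (∀ v ∈ U, dg G U v + c * dg H U v ≤ m) →
      (∀ U' ⊂ U, ∀ H', Ineq k m (m * (m + 1) + g) c G H' U') →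
      Ineq k m (m * (m + 1) + g) c G H U := by
  set β : ℝ := 1 / (4 * (k + 1) * (k + 2)) with hβ
  have hβ0 : 0 < β := by positivity
  have hc0 : (0 : ℝ) < c := by exact_mod_cast (show 0 < c by omega)
  obtain ⟨j, hj⟩ := exists_pow_lt_of_lt_one (x := β / (8 * (k + 1) * 2 ^ k))
    (y := 1 - β / 4 / 2) (by positivity) (by linarith)
  refine ⟨β / (8 * c * ((k + 1 + j : ℕ) : ℝ) ^ 2), by positivity,
    ⌈8 * ((k + 1 + j : ℕ) : ℝ) / β⌉₊, fun m hm g h1 h2 V _ G H U Q q1 q2 q3 q4 q5 ih => ?_⟩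
  refine remove_core (j := j) hc hβ0 (by rw [hβ]; field_simp) (by positivity)
    (by field_simp) ((lt_div_iff₀ (by positivity)).1 hj).le ?_ h1 h2 q1 q2 q3 q4 q5 ih
  have := Nat.ceil_le.1 hm
  rw [div_le_iff₀ hβ0] at this
  linarith

end Pool.Agent.P.MP_39eed7_co
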