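import Pool.Agent.P.MP_39eed7_co.Inner

/-! Choice of candidates inside a near-clique and the two reductions. -/

set_option autoImplicit false
set_option linter.unusedSectionVars false

open Finset

namespace Pool.Agent.P.MP_39eed7_co

variable {V : Type} [DecidableEq V] {k : ℕ} {G H J : SimpleGraph V} {U X : Finset V}

open Classical in
lemma hit_step {P W : Finset V} (ω : V → ℝ) (hω : ∀ w, 0 ≤ ω w) {b : ℝ} (hP : P.Nonempty)
    (hm : ∀ w ∈ W, b * P.card ≤ (P \ nb J P w).card) :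
    ∃ x ∈ P, ∑ w ∈ W, ω w * (if J.Adj w x then 1 else 1 / 2) ≤ (1 - b / 2) * ∑ w ∈ W, ω w := by
  refine exists_le_of_sum_le hP ?_
  rw [sum_comm, sum_const, nsmul_eq_mul, mul_sum, mul_sum]
  refine sum_le_sum fun w hw => ?_
  have h1 : ∑ x ∈ P, (if J.Adj w x then (1 : ℝ) else 1 / 2)
      = P.card - (1 / 2) * (P \ nb J P w).card := by
    have : P \ nb J P w = P.filter fun x => ¬ J.Adj w x := by
      ext x
      simp only [mem_sdiff, mem_nb, mem_filter]
      tauto
    rw [this, card_filter, card_eq_sum_ones P]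
    push_cast
    rw [mul_sum, ← sum_sub_distrib]
    exact sum_congr rfl fun x _ => by split_ifs <;> norm_num
  rw [← mul_sum, h1]
  have := mul_le_mul_of_nonneg_left (hm w hw) (hω w)
  nlinarith

lemma select {P W Y0 : Finset V} {L : ℕ} {h t b : ℝ} (hh : ∀ x ∈ P, (dg H P x : ℝ) ≤ h)
    (h0 : 0 ≤ h) (hL : L * (h + 1) ≤ t) (hP : t < P.card) (hb0 : 0 ≤ b) (hb : b ≤ 1)
    (hm : ∀ w ∈ W, t + b * P.card ≤ (P \ nb J P w).card) (hY : Y0 ⊆ P)
    (hI : ∀ v ∈ Y0, ∀ w ∈ Y0, ¬ H.Adj v w) (j : ℕ) : Y0.card + j ≤ L →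
    ∃ Y ⊆ P, Y0 ⊆ Y ∧ Y.card = Y0.card + j ∧ (∀ v ∈ Y, ∀ w ∈ Y, ¬ H.Adj v w) ∧
      ∑ w ∈ W, (1 / 2 : ℝ) ^ (Y \ nb J Y w).card ≤ (1 - b / 2) ^ j * W.card := by
  classical
  induction j with
  | zero =>
    refine fun _ => ⟨Y0, hY, Subset.rfl, rfl, hI, ?_⟩
    rw [pow_zero, one_mul, card_eq_sum_ones W]
    push_cast
    exact sum_le_sum fun w _ => pow_le_one₀ (by norm_num) (by norm_num)
  | succ j ih =>
    intro hj
    obtain ⟨Y, y1, y2, y3, y4, y5⟩ := ih (by omega)
    set F := Y ∪ Y.biUnion (nb H P) with hF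
    have hFc : (F.card : ℝ) ≤ t := by
      have h1 : (F.card : ℝ) ≤ Y.card + ∑ x ∈ Y, (dg H P x : ℝ) := by
        have := (card_union_le Y (Y.biUnion (nb H P))).trans
          (Nat.add_le_add_left card_biUnion_le _)
        exact_mod_cast this
      have h2 : ∑ x ∈ Y, (dg H P x : ℝ) ≤ Y.card * h := by
        rw [← nsmul_eq_mul, ← sum_const]
        exact sum_le_sum fun x hx => hh x (y1 hx)
      have h3 : (Y.card : ℝ) ≤ L := by exact_mod_cast (show Y.card ≤ L by omega)
      nlinarith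
    have hne : (P \ F).Nonempty := by
      rw [sdiff_nonempty]
      intro h
      have : (P.card : ℝ) ≤ F.card := by exact_mod_cast card_le_card h
      linarith
    obtain ⟨x, hx, hs⟩ := hit_step (J := J) (W := W) (fun w => (1 / 2 : ℝ) ^ (Y \ nb J Y w).card)
      (fun _ => by positivity) (b := b) hne (fun w hw => by
        have h1 := hm w hw
        have h2 : (P \ nb J P w).card ≤ ((P \ F) \ nb J (P \ F) w).card + F.card := by
          refine le_trans (card_le_card fun x hx => ?_) (card_union_le _ _)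
          simp only [mem_sdiff, mem_nb, mem_union (s := (P \ F) \ nb J (P \ F) w)] at hx ⊢
          tauto
        have h3 : ((P \ nb J P w).card : ℝ) ≤ ((P \ F) \ nb J (P \ F) w).card + F.card := by
          exact_mod_cast h2
        have h4 : ((P \ F).card : ℝ) ≤ P.card := by exact_mod_cast card_le_card sdiff_subset
        nlinarith)
    simp only [hF, mem_sdiff, mem_union, mem_biUnion, mem_nb, not_or, not_exists, not_and] at hx
    obtain ⟨x1, x2, x3⟩ := hx
    refine ⟨insert x Y, insert_subset x1 y1, y2.trans (subset_insert _ _),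
      by rw [card_insert_of_notMem x2]; omega, ?_, ?_⟩
    · intro v hv w hw
      rcases mem_insert.1 hv with e | hv <;> rcases mem_insert.1 hw with e' | hw
      · rw [e, e']; exact H.irrefl
      · rw [e]; exact fun a => x3 w hw x1 a.symm
      · rw [e']; exact x3 v hv x1
      · exact y4 v hv w hw
    · refine le_trans (le_of_eq (sum_congr rfl fun w _ => ?_)) (hs.trans ?_)
      · split_ifs with a
        · rw [mul_one]
          congr 2
          ext y
          simp only [mem_sdiff, mem_insert, mem_nb]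
          constructor
          · rintro ⟨rfl | h, h'⟩
            · exact absurd ⟨Or.inl rfl, a⟩ h'
            · exact ⟨h, fun h2 => h' ⟨Or.inr h, h2.2⟩⟩
          · exact fun h => ⟨Or.inr h.1, fun h2 => h.2 ⟨h.1, h2.2⟩⟩
        · rw [← pow_succ, ← card_insert_of_notMem (a := x) (by simp [x2])]
          congr 2
          ext y
          simp only [mem_sdiff, mem_insert, mem_nb]
          constructor
          · rintro ⟨rfl | h, h'⟩
            · exact Or.inl rfl
            · exact Or.inr ⟨h, fun h2 => h' ⟨Or.inr h, h2.2⟩⟩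
          · rintro (rfl | h)
            · exact ⟨Or.inl rfl, fun h2 => a h2.2⟩
            · exact ⟨Or.inr h.1, fun h2 => h.2 ⟨h.1, h2.2⟩⟩
      · rw [pow_succ', mul_assoc]
        exact mul_le_mul_of_nonneg_left y5 (by linarith)

/-- the complete graph on `W` -/
def cliq (W : Finset V) : SimpleGraph V where
  Adj a b := a ≠ b ∧ a ∈ W ∧ b ∈ W
  symm := ⟨fun _ _ h => ⟨h.1.symm, h.2.2, h.2.1⟩⟩
  loopless := ⟨fun _ h => h.1 rfl⟩

lemma E2_cliq (W U : Finset V) : E2 (H ⊔ cliq W) U ≤ E2 H U + W.card * W.card := by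
  have h1 : E2 (H ⊔ cliq W) U ≤ E2 H U + E2 (cliq W) U := by
    unfold E2
    rw [← sum_add_distrib]
    exact sum_le_sum fun _ _ => dg_sup_le
  refine h1.trans (Nat.add_le_add_left ?_ _)
  calc E2 (cliq W) U = ∑ v ∈ U.filter (· ∈ W), dg (cliq W) U v := by
        rw [E2, sum_filter]
        refine sum_congr rfl fun v _ => ?_
        split_ifs with h
        · rfl
        · exact dg_eq_zero.2 fun w _ a => h a.2.1
    _ ≤ ∑ _v ∈ U.filter (· ∈ W), W.card :=
        sum_le_sum fun v _ => card_le_card fun w hw => (mem_nb.1 hw).2.2.2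
    _ ≤ _ := by
        rw [sum_const, smul_eq_mul]
        exact Nat.mul_le_mul_right _ (card_le_card fun v hv => (mem_filter.1 hv).2)

/-- reduction when the near-clique contains a valid set of size `k+2` -/
lemma redA {m a c : ℕ} {S : Finset V} (hX : X ⊆ U) (hS : S ⊆ X) (hv : Valid k G H S)
    (hc : S.card = k + 2)
    (hnum : 2 * (k + 1) * m * (X.card + (S.biUnion (nb (G ⊔ H) (U \ X))).card)
      ≤ (k + 1) * E2 G X + (k + 2) * a)
    (ih : ∀ U' ⊂ U, Ineq k m a c G H U') : Ineq k m a c G H U := by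
  set N := S.biUnion (nb (G ⊔ H) (U \ X)) with hN
  have hne : X.Nonempty := (card_pos.1 (by omega)).mono hS
  have h1 := ih ((U \ X) \ N)
    (Finset.ssubset_of_subset_of_ssubset sdiff_subset (sdiff_ssubset hX hne))
  have h2 : al k G H ((U \ X) \ N) + (k + 2) ≤ al k G H U := by
    obtain ⟨T, t1, t2, t3⟩ := exists_al k G H ((U \ X) \ N)
    have hd : Disjoint T S := disjoint_left.2 fun x hx hx' =>
      (mem_sdiff.1 (mem_sdiff.1 (t1 hx)).1).2 (hS hx')
    rw [← t3, ← hc, ← card_union_of_disjoint hd]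
    refine le_al (union_subset (t1.trans (sdiff_subset.trans sdiff_subset)) (hS.trans hX))
      (t2.union hv fun x hx s hs a => ?_)
    have := mem_sdiff.1 (t1 hx)
    exact this.2 (mem_biUnion.2 ⟨s, hs, mem_nb.2 ⟨this.1, a.symm⟩⟩)
  have h3 := E2_split (G := G) hX
  have h4 := E2_mono (G := G) (sdiff_subset (s := U \ X) (t := N))
  have h5 := E2_mono (G := H) ((sdiff_subset (s := U \ X) (t := N)).trans sdiff_subset)
  have h6 := card_sdiff_add_card_eq_card hX
  have h7 := le_card_sdiff N (U \ X)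
  have h8 : U.card ≤ ((U \ X) \ N).card + (X.card + N.card) := by omega
  unfold Ineq at h1 ⊢
  have h9 := Nat.mul_le_mul_left (2 * (k + 1) * m) h8
  have h10 := Nat.mul_le_mul_right a h2
  have h11 := Nat.mul_le_mul_left ((k + 1) * c) h5
  have h12 : (k + 1) * (E2 G ((U \ X) \ N) + E2 G X) ≤ (k + 1) * E2 G U :=
    Nat.mul_le_mul_left _ (by omega)
  nlinarith

/-- reduction when the near-clique contains no valid set of size `k+2` -/
lemma redB {m a c : ℕ} {Y Bad : Finset V} (hX : X ⊆ U) (hY : Y ⊆ X) (hc : 1 ≤ c)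
    (hI : ∀ v ∈ Y, ∀ w ∈ Y, ¬ H.Adj v w) (hYc : k + 1 ≤ Y.card)
    (hmiss : ∀ w ∈ (U \ X) \ Bad, k + 1 ≤ (Y \ nb (G ⊔ H) Y w).card)
    (hin : 2 * m * X.card ≤ E2 G X + c * E2 H X + a)
    (hnum : 2 * m * Bad.card + c * ((Y.biUnion (nb (G ⊔ H) (U \ X))).card *
      (Y.biUnion (nb (G ⊔ H) (U \ X))).card) ≤ 2 * ∑ x ∈ X, dg (G ⊔ H) (U \ X) x)
    (ih : ∀ U' ⊂ U, ∀ H', Ineq k m a c G H' U') : Ineq k m a c G H U := by
  set W := Y.biUnion (nb (G ⊔ H) (U \ X)) with hW
  have hne : X.Nonempty := (card_pos.1 (by omega)).mono hY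
  have h1 := ih ((U \ X) \ Bad)
    (Finset.ssubset_of_subset_of_ssubset sdiff_subset (sdiff_ssubset hX hne)) (H ⊔ cliq W)
  have h2 : al k G (H ⊔ cliq W) ((U \ X) \ Bad) + (k + 1) ≤ al k G H U := by
    obtain ⟨T, t1, t2, t3⟩ := exists_al k G (H ⊔ cliq W) ((U \ X) \ Bad)
    have hTW : ∀ x ∈ T, ∀ s ∈ Y, (G ⊔ H).Adj x s → x ∈ W := fun x hx s hs a =>
      mem_biUnion.2 ⟨s, hs, mem_nb.2 ⟨(mem_sdiff.1 (t1 hx)).1, a.symm⟩⟩
    obtain ⟨S, s1, s2, s3⟩ : ∃ S ⊆ Y, S.card = k + 1 ∧ ∀ x ∈ T, ∀ s ∈ S, ¬ (G ⊔ H).Adj x s := by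
      by_cases h : ∃ w ∈ T, w ∈ W
      · obtain ⟨w, w1, w2⟩ := h
        obtain ⟨S, s1, s2⟩ := exists_subset_card_eq (hmiss w (t1 w1))
        refine ⟨S, s1.trans sdiff_subset, s2, fun x hx s hs a => ?_⟩
        have h3 := mem_sdiff.1 (s1 hs)
        by_cases e : x = w
        · exact h3.2 (mem_nb.2 ⟨h3.1, e ▸ a⟩)
        · exact t2.2 x hx w w1 (Or.inr ⟨e, hTW x hx s h3.1 a, w2⟩)
      · obtain ⟨S, s1, s2⟩ := exists_subset_card_eq hYc
        exact ⟨S, s1, s2, fun x hx s hs a => h ⟨x, hx, hTW x hx s (s1 hs) a⟩⟩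
    have hd : Disjoint T S := disjoint_left.2 fun x hx hx' =>
      (mem_sdiff.1 (mem_sdiff.1 (t1 hx)).1).2 (hY (s1 hx'))
    rw [← t3, ← s2, ← card_union_of_disjoint hd]
    refine le_al (union_subset (t1.trans (sdiff_subset.trans sdiff_subset))
      ((s1.trans hY).trans hX)) (Valid.union ⟨t2.1, fun v hv w hw a => t2.2 v hv w hw (Or.inl a)⟩
        ⟨fun v hv => ?_, fun v hv w hw => hI v (s1 hv) w (s1 hw)⟩ s3)
    have := dg_lt_card (G := G) hv
    omega
  have h3 := E2_split (G := G) hX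
  have h3' := E2_split (G := H) hX
  have h4 := E2_mono (G := G) (sdiff_subset (s := U \ X) (t := Bad))
  have h5 := (E2_cliq (H := H) W ((U \ X) \ Bad)).trans
    (Nat.add_le_add_right (E2_mono (G := H) (sdiff_subset (s := U \ X) (t := Bad))) _)
  have h6 := card_sdiff_add_card_eq_card hX
  have h7 := le_card_sdiff Bad (U \ X)
  have h8 : U.card ≤ ((U \ X) \ Bad).card + (X.card + Bad.card) := by omega
  have h9 : ∑ x ∈ X, dg (G ⊔ H) (U \ X) x
      ≤ ∑ x ∈ X, dg G (U \ X) x + c * ∑ x ∈ X, dg H (U \ X) x := by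
    refine le_trans ?_ (Nat.add_le_add_left (Nat.le_mul_of_pos_left _ hc) _)
    rw [← sum_add_distrib]
    exact sum_le_sum fun _ _ => dg_sup_le
  have h10 := Nat.mul_le_mul_left c h5
  have key : E2 G ((U \ X) \ Bad) + c * E2 (H ⊔ cliq W) ((U \ X) \ Bad)
      + 2 * m * (X.card + Bad.card) ≤ E2 G U + c * E2 H U + a := by
    rw [h3, h3']
    nlinarith
  unfold Ineq at h1 ⊢
  have h11 := Nat.mul_le_mul_left (2 * (k + 1) * m) h8
  have h12 := Nat.mul_le_mul_right a h2
  have h13 := Nat.mul_le_mul_left (k + 1) key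
  nlinarith

end Pool.Agent.P.MP_39eed7_co
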