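import Mathlib

/-! Deleting a vertex together with the edges that become useless: definitions and degrees. -/

set_option autoImplicit false
set_option linter.unusedSectionVars false

open Finset

namespace Pool.Agent.P.MP_39eed7_co.Sm

variable {V : Type} [Fintype V] [DecidableEq V]

open Classical in
/-- neighbours -/
noncomputable def nb (G : SimpleGraph V) (v : V) : Finset V := univ.filter (G.Adj v)

/-- degree -/
noncomputable def dg (G : SimpleGraph V) (v : V) : ℕ := (nb G v).card

/-- after deleting `D` all degrees are at most `k` -/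
def Ok (k : ℕ) (G : SimpleGraph V) (D : Finset V) : Prop := ∀ v, v ∉ D → (nb G v \ D).card ≤ k

/-- bonus of a vertex of degree `d` -/
def gg (k d : ℕ) : ℕ := if d = 1 ∨ k + 1 ≤ d then 1 else 0

/-- weight of a vertex of degree `d` -/
def pp (k d : ℕ) : ℕ := (k + 1) * d + 2 * gg k d

/-- total weight -/
noncomputable def pot (k : ℕ) (G : SimpleGraph V) : ℕ := ∑ v, pp k (dg G v)

variable {G : SimpleGraph V} {k : ℕ} {v w y : V}

@[simp] lemma mem_nb : w ∈ nb G v ↔ G.Adj v w := by simp [nb]

lemma dg_mono {G' : SimpleGraph V} (h : G' ≤ G) (v : V) : dg G' v ≤ dg G v :=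
  card_le_card fun _ hw => mem_nb.2 (h (mem_nb.1 hw))

lemma gg_le (k d : ℕ) : gg k d ≤ 1 := by unfold gg; split_ifs <;> omega

lemma pp_step (hk : 2 ≤ k) (d e : ℕ) : pp k d + (k - 1) * e ≤ pp k (d + e) := by
  rcases Nat.eq_zero_or_pos e with rfl | he
  · simp
  obtain ⟨j, rfl⟩ : ∃ j, k = j + 1 := ⟨k - 1, by omega⟩
  have := gg_le (j + 1) d
  simp only [pp, Nat.add_sub_cancel]
  nlinarith

lemma pp_mono (hk : 2 ≤ k) {d e : ℕ} (h : d ≤ e) : pp k d ≤ pp k e := by
  obtain ⟨j, rfl⟩ := Nat.exists_eq_add_of_le h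
  exact le_trans (Nat.le_add_right _ _) (pp_step hk d j)

/-- high neighbours of `w` -/
noncomputable def hi (k : ℕ) (G : SimpleGraph V) (w : V) : Finset V :=
  (nb G w).filter fun y => k < dg G y

/-- low vertices other than `w` -/
noncomputable def lo (k : ℕ) (G : SimpleGraph V) (w : V) : Finset V :=
  univ.filter fun v => dg G v ≤ k ∧ v ≠ w

@[simp] lemma mem_hi : y ∈ hi k G w ↔ G.Adj w y ∧ k < dg G y := by simp [hi]

@[simp] lemma mem_lo : v ∈ lo k G w ↔ dg G v ≤ k ∧ v ≠ w := by simp [lo]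

/-- number of low neighbours other than `w` -/
noncomputable def aa (k : ℕ) (G : SimpleGraph V) (w y : V) : ℕ := (nb G y ∩ lo k G w).card

/-- delete the edges at `w` and the edges from high neighbours of `w` to low vertices -/
def mv (k : ℕ) (G : SimpleGraph V) (w : V) : SimpleGraph V where
  Adj a b := G.Adj a b ∧ a ≠ w ∧ b ≠ w ∧ ¬ (a ∈ hi k G w ∧ dg G b ≤ k) ∧
    ¬ (b ∈ hi k G w ∧ dg G a ≤ k)
  symm := ⟨fun _ _ h => ⟨h.1.symm, h.2.2.1, h.2.1, h.2.2.2.2, h.2.2.2.1⟩⟩
  loopless := ⟨fun _ h => h.1.ne rfl⟩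

lemma mv_adj {a b : V} : (mv k G w).Adj a b ↔ G.Adj a b ∧ a ≠ w ∧ b ≠ w ∧
    ¬ (a ∈ hi k G w ∧ dg G b ≤ k) ∧ ¬ (b ∈ hi k G w ∧ dg G a ≤ k) := Iff.rfl

lemma mv_le : mv k G w ≤ G := fun _ _ h => h.1

lemma mv_ok (hD : ∀ v, dg G v ≤ k + 1) {D : Finset V} (h : Ok k (mv k G w) D) :
    Ok k G (insert w D) := by
  intro v hv
  rw [mem_insert, not_or] at hv
  by_cases h1 : dg G v ≤ k
  · exact le_trans (card_le_card sdiff_subset) h1
  by_cases h2 : G.Adj w v
  · have h3 : nb G v \ insert w D ⊆ (nb G v).erase w := fun b hb => by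
      simp only [mem_sdiff, mem_insert, not_or, mem_erase] at hb ⊢
      tauto
    have h4 := card_erase_add_one (mem_nb.2 h2.symm)
    have h5 := card_le_card h3
    have h6 := hD v
    unfold dg at h6
    omega
  · refine le_trans (card_le_card fun b hb => ?_) (h v hv.2)
    simp only [mem_sdiff, mem_insert, not_or, mem_nb, mv_adj, mem_hi] at hb ⊢
    tauto

lemma mv_dg_self : dg (mv k G w) w = 0 := by
  rw [dg, card_eq_zero, eq_empty_iff_forall_notMem]
  intro b hb
  exact (mem_nb.1 hb).2.1 rfl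

lemma mv_dg_hi (hy : y ∈ hi k G w) : dg (mv k G w) y + 1 + aa k G w y = dg G y := by
  have h1 := mem_hi.1 hy
  have e : nb G y = nb (mv k G w) y ∪ (insert w (nb G y ∩ lo k G w)) := by
    ext b
    simp only [mem_union, mem_insert, mem_inter, mem_nb, mv_adj, mem_hi, mem_lo]
    constructor
    · intro hb
      by_cases h2 : b = w
      · exact Or.inr (Or.inl h2)
      by_cases h3 : dg G b ≤ k
      · exact Or.inr (Or.inr ⟨hb, h3, h2⟩)
      · exact Or.inl ⟨hb, h1.1.ne', h2, fun h => h3 h.2, fun h => by omega⟩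
    · rintro (hb | rfl | hb)
      · exact hb.1
      · exact h1.1.symm
      · exact hb.1
  have d : Disjoint (nb (mv k G w) y) (insert w (nb G y ∩ lo k G w)) := by
    rw [disjoint_left]
    intro b hb hb'
    simp only [mem_insert, mem_inter, mem_nb, mv_adj, mem_lo] at hb hb'
    rcases hb' with h | h
    · exact hb.2.2.1 h
    · exact hb.2.2.2.1 ⟨hy, h.2.1⟩
  have c := card_union_of_disjoint d
  rw [← e, card_insert_of_notMem (by simp)] at c
  unfold dg aa
  omega

lemma mv_dg_lo (hv : v ∈ lo k G w) :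
    dg (mv k G w) v + (nb G v ∩ insert w (hi k G w)).card = dg G v := by
  have h1 := mem_lo.1 hv
  have e : nb G v = nb (mv k G w) v ∪ (nb G v ∩ insert w (hi k G w)) := by
    ext b
    simp only [mem_union, mem_insert, mem_inter, mem_nb, mv_adj]
    constructor
    · intro hb
      by_cases h2 : b = w
      · exact Or.inr ⟨hb, Or.inl h2⟩
      by_cases h3 : b ∈ hi k G w
      · exact Or.inr ⟨hb, Or.inr h3⟩
      · refine Or.inl ⟨hb, h1.2, h2, fun h => ?_, fun h => h3 h.1⟩
        have := (mem_hi.1 h.1).2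
        omega
    · rintro (hb | hb)
      · exact hb.1
      · exact hb.1
  have d : Disjoint (nb (mv k G w) v) (nb G v ∩ insert w (hi k G w)) := by
    rw [disjoint_left]
    intro b hb hb'
    simp only [mem_insert, mem_inter, mem_nb, mv_adj] at hb hb'
    rcases hb'.2 with h | h
    · exact hb.2.2.1 h
    · exact hb.2.2.2.2 ⟨h, h1.1⟩
  have c := card_union_of_disjoint d
  rw [← e] at c
  unfold dg
  omega

lemma double (A B : Finset V) : ∑ v ∈ A, (nb G v ∩ B).card = ∑ y ∈ B, (nb G y ∩ A).card := by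
  classical
  have h : ∀ (A B : Finset V), ∑ v ∈ A, (nb G v ∩ B).card =
      ∑ v ∈ A, ∑ y ∈ B, if G.Adj v y then 1 else 0 := fun A B => by
    refine sum_congr rfl fun v _ => ?_
    rw [← card_filter]
    congr 1
    ext b
    simp [and_comm]
  rw [h, h, sum_comm]
  simp only [G.adj_comm]

lemma mv_pot (hk : 2 ≤ k) (hD : ∀ v, dg G v ≤ k + 1) (c : ℕ)
    (hc : ∀ v ∈ lo k G w, ∀ d e, d + e = dg G v → pp k d + c * e ≤ pp k (dg G v)) :
    pot k (mv k G w) + pp k (dg G w) + ∑ y ∈ hi k G w, ((k + 1) * (1 + aa k G w y) + 2) +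
      c * (aa k G w w + ∑ y ∈ hi k G w, aa k G w y) ≤
      pot k G + ∑ y ∈ hi k G w, if aa k G w y + 1 = k then 2 else 0 := by
  have hw : w ∉ hi k G w := by simp
  have e1 : aa k G w w + ∑ y ∈ hi k G w, aa k G w y =
      ∑ v ∈ lo k G w, (nb G v ∩ insert w (hi k G w)).card := by
    rw [double, sum_insert hw]
    rfl
  have key : ∀ v, pp k (dg (mv k G w) v) + (if v = w then pp k (dg G w) else 0) +
      (if v ∈ hi k G w then (k + 1) * (1 + aa k G w v) + 2 else 0) +
      (if v ∈ lo k G w then c * (nb G v ∩ insert w (hi k G w)).card else 0) ≤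
      pp k (dg G v) + (if v ∈ hi k G w then (if aa k G w v + 1 = k then 2 else 0) else 0) := by
    intro v
    by_cases h1 : v = w
    · subst h1
      simp [mv_dg_self, pp, gg]
    by_cases h2 : v ∈ hi k G w
    · have h3 : v ∉ lo k G w := by
        have := (mem_hi.1 h2).2
        simp only [mem_lo]
        omega
      have h4 := mv_dg_hi h2
      have h5 := (mem_hi.1 h2).2
      have h6 := hD v
      rw [if_neg h1, if_pos h2, if_neg h3, if_pos h2]
      have h7 : dg G v = k + 1 := by omega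
      have h8 : (k + 1) * dg (mv k G w) v + (k + 1) * (1 + aa k G w v) = (k + 1) * (k + 1) := by
        rw [← mul_add]
        congr 1
        omega
      rw [h7]
      unfold pp gg
      split_ifs <;> omega
    by_cases h3 : v ∈ lo k G w
    · rw [if_neg h1, if_neg h2, if_pos h3, if_neg h2]
      simpa using hc v h3 _ _ (mv_dg_lo h3)
    · rw [if_neg h1, if_neg h2, if_neg h3, if_neg h2]
      simpa using pp_mono hk (dg_mono mv_le v)
  have s := sum_le_sum fun v (_ : v ∈ (univ : Finset V)) => key v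
  simp only [sum_add_distrib, sum_ite_eq', mem_univ, if_true, sum_ite_mem, univ_inter] at s
  rw [e1, mul_sum]
  unfold pot
  simpa only [sum_add_distrib] using s

end Pool.Agent.P.MP_39eed7_co.Sm
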