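import Pool.Agent.P.MP_39eed7_co.SmA

/-! The two inductions. -/

set_option autoImplicit false
set_option linter.unusedSectionVars false

open Finset

namespace Pool.Agent.P.MP_39eed7_co.Sm

variable {V : Type} [Fintype V] [DecidableEq V] {G : SimpleGraph V} {k : ℕ} {u v w y : V}

lemma pp_high : pp k (k + 1) = (k + 1) * (k + 1) + 2 := by simp [pp, gg]

lemma card_split : (hi k G u).card + aa k G u u = dg G u := by
  classical
  have : nb G u ∩ lo k G u = (nb G u).filter fun y => ¬ k < dg G y := by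
    ext b
    simp only [mem_inter, mem_nb, mem_lo, mem_filter, not_lt]
    exact ⟨fun h => ⟨h.1, h.2.1⟩, fun h => ⟨h.1, h.2, h.1.ne'⟩⟩
  rw [aa, this, hi, card_filter_add_card_filter_not]
  rfl

/-- number of low neighbours -/
noncomputable def al (k : ℕ) (G : SimpleGraph V) (y : V) : ℕ :=
  ((nb G y).filter fun b => dg G b ≤ k).card

lemma aa_eq (hu : k < dg G u) (y : V) : aa k G u y = al k G y := by
  unfold aa al
  congr 1
  ext b
  simp only [mem_inter, mem_nb, mem_lo, mem_filter]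
  refine ⟨fun h => ⟨h.1, h.2.1⟩, fun h => ⟨h.1, h.2, ?_⟩⟩
  rintro rfl
  omega

lemma arith {k a h A m : ℕ} (hk : 2 ≤ k) (h1 : h + a = k + 1) (h2 : 1 ≤ h)
    (h3 : h * (k * a) + m ≤ k * A + h * if a + 1 = k then 1 else 0) : 2 * a + m ≤ k * A := by
  split_ifs at h3 with h4
  · have : h = 2 := by omega
    subst this
    subst h4
    nlinarith
  · have : 2 * a ≤ h * (k * a) := by
      calc 2 * a ≤ k * a := by gcongr
        _ ≤ h * (k * a) := Nat.le_mul_of_pos_left _ h2
    omega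

/-- two adjacent high vertices -/
lemma move1 (hk : 2 ≤ k) (hD : ∀ v, dg G v ≤ k + 1)
    (h : ∃ u y, G.Adj u y ∧ k < dg G u ∧ k < dg G y) :
    ∃ w, pot k (mv k G w) + 2 * (k * k + 3 * k + 3) ≤ pot k G := by
  classical
  obtain ⟨u, hu, hmin⟩ := exists_min_image
    (univ.filter fun u => k < dg G u ∧ ∃ y, G.Adj u y ∧ k < dg G y) (al k G) (by
      obtain ⟨u, y, h1, h2, h3⟩ := h
      exact ⟨u, by simpa using ⟨h2, y, h1, h3⟩⟩)
  simp only [mem_filter, mem_univ, true_and] at hu hmin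
  obtain ⟨hu, y0, hy0⟩ := hu
  refine ⟨u, ?_⟩
  have p := mv_pot (w := u) hk hD (k - 1) fun v _ d e hde => hde ▸ pp_step hk d e
  have c1 := card_split (k := k) (G := G) (u := u)
  have c2 : dg G u = k + 1 := le_antisymm (hD u) hu
  have c3 : 1 ≤ (hi k G u).card := card_pos.2 ⟨y0, mem_hi.2 hy0⟩
  simp only [aa_eq hu] at p c1
  have c4 : ∀ y ∈ hi k G u, k * al k G u + (if al k G y + 1 = k then 1 else 0) ≤
      k * al k G y + if al k G u + 1 = k then 1 else 0 := by
    intro y hy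
    have := hmin y ⟨(mem_hi.1 hy).2, u, (mem_hi.1 hy).1.symm, hu⟩
    rcases this.eq_or_lt with h1 | h1
    · rw [h1]
    · have : k * (al k G u + 1) ≤ k * al k G y := by gcongr; omega
      split_ifs <;> nlinarith
  have c5 := sum_le_sum c4
  simp only [sum_add_distrib, sum_const, smul_eq_mul, ← mul_sum] at c5 p
  have c6 := arith hk (c1.trans c2) c3 c5
  have c7 : (∑ y ∈ hi k G u, if al k G y + 1 = k then 2 else 0) =
      2 * ∑ y ∈ hi k G u, if al k G y + 1 = k then 1 else 0 := by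
    rw [mul_sum]
    exact sum_congr rfl fun y _ => by split_ifs <;> rfl
  rw [c7, c2, pp_high] at p
  rw [c2] at c1
  obtain ⟨j, rfl⟩ : ∃ j, k = j + 1 := ⟨k - 1, by omega⟩
  simp only [Nat.add_sub_cancel] at p
  nlinarith

/-- a low vertex with at least two neighbours in a bipartite high-low graph -/
lemma move2 (hk : 2 ≤ k) (hD : ∀ v, dg G v ≤ k + 1)
    (h1 : ∀ u y, G.Adj u y → k < dg G u → dg G y ≤ k)
    (h2 : ∀ u y, G.Adj u y → dg G u ≤ k → k < dg G y) (hw : dg G w ≤ k) (hw2 : 2 ≤ dg G w) :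
    pot k (mv k G w) + 2 * (k * k + 3 * k + 3) ≤ pot k G := by
  have p := mv_pot (w := w) hk hD (k - 1) fun v _ d e hde => hde ▸ pp_step hk d e
  have e : hi k G w = nb G w := filter_true_of_mem fun y hy => h2 w y (mem_nb.1 hy) hw
  have a : ∀ y ∈ hi k G w, aa k G w y = k := by
    intro y hy
    have h3 := mem_hi.1 hy
    have h4 : nb G y ∩ lo k G w = (nb G y).erase w := by
      ext b
      simp only [mem_inter, mem_nb, mem_lo, mem_erase]
      exact ⟨fun h => ⟨h.2.2, h.1⟩, fun h => ⟨h.2, h1 y b h.2 h3.2, h.1⟩⟩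
    have h5 := card_erase_add_one (mem_nb.2 h3.1.symm)
    have h6 := hD y
    have h7 := h3.2
    rw [aa, h4]
    unfold dg at h6 h7
    omega
  have s1 : ∑ y ∈ hi k G w, ((k + 1) * (1 + aa k G w y) + 2) =
      ∑ _y ∈ hi k G w, ((k + 1) * (1 + k) + 2) := sum_congr rfl fun y hy => by rw [a y hy]
  have s2 : (∑ y ∈ hi k G w, if aa k G w y + 1 = k then 2 else 0) = 0 :=
    sum_eq_zero fun y hy => by rw [a y hy, if_neg (by omega)]
  rw [s1, s2, sum_congr rfl a] at p
  simp only [sum_const, smul_eq_mul, e, add_zero] at p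
  have q : (k + 1) * dg G w ≤ pp k (dg G w) := Nat.le_add_right _ _
  change 2 ≤ (nb G w).card at hw2
  unfold dg at p q
  obtain ⟨j, rfl⟩ : ∃ j, k = j + 1 := ⟨k - 1, by omega⟩
  simp only [Nat.add_sub_cancel] at p
  obtain ⟨t, ht⟩ := Nat.exists_eq_add_of_le hw2
  rw [ht] at p q
  nlinarith [Nat.zero_le (t * j), Nat.zero_le (t * j * j), Nat.zero_le (j * aa (j + 1) G w w)]

/-- a star -/
lemma move3 (hk : 2 ≤ k) (hD : ∀ v, dg G v ≤ k + 1)
    (h1 : ∀ u y, G.Adj u y → k < dg G u → dg G y ≤ k) (h2 : ∀ v, dg G v ≤ k → dg G v ≤ 1)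
    (hu : k < dg G u) : pot k (mv k G u) + 2 * (k * k + 3 * k + 3) ≤ pot k G := by
  have p := mv_pot (w := u) hk hD (k + 3) fun v hv d e hde => by
    have h3 := h2 v (mem_lo.1 hv).1
    rcases Nat.eq_zero_or_pos e with rfl | he
    · simp [← hde]
    · have h4 : d = 0 := by omega
      have h5 : e = 1 := by omega
      rw [← hde, h4, h5]
      simp [pp, gg]
  have e : hi k G u = ∅ := filter_false_of_mem fun y hy => by
    have := h1 u y (mem_nb.1 hy) hu
    omega
  have c1 := card_split (k := k) (G := G) (u := u)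
  have c2 : dg G u = k + 1 := le_antisymm (hD u) hu
  rw [e] at p c1
  simp only [card_empty, zero_add, sum_empty, add_zero] at p c1
  rw [c1, c2, pp_high] at p
  nlinarith

/-- delete the edges between low vertices -/
def cut (k : ℕ) (G : SimpleGraph V) : SimpleGraph V where
  Adj a b := G.Adj a b ∧ (k < dg G a ∨ k < dg G b)
  symm := ⟨fun _ _ h => ⟨h.1.symm, h.2.symm⟩⟩
  loopless := ⟨fun _ h => h.1.ne rfl⟩

lemma phase2 (hk : 2 ≤ k) (n : ℕ) : ∀ G : SimpleGraph V, pot k G = n → (∀ v, dg G v ≤ k + 1) →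
    ∃ D, Ok k G D ∧ 2 * (k * k + 3 * k + 3) * D.card ≤ pot k G := by
  induction n using Nat.strong_induction_on with
  | _ n ih =>
  intro G hn hD
  have step : ∀ w, pot k (mv k G w) + 2 * (k * k + 3 * k + 3) ≤ pot k G →
      ∃ D, Ok k G D ∧ 2 * (k * k + 3 * k + 3) * D.card ≤ pot k G := fun w hw => by
    obtain ⟨D, h1, h2⟩ := ih (pot k (mv k G w)) (by omega) _ rfl
      fun v => (dg_mono mv_le v).trans (hD v)
    refine ⟨_, mv_ok hD h1, ?_⟩
    have := Nat.mul_le_mul_left (2 * (k * k + 3 * k + 3)) (card_insert_le w D)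
    rw [mul_add_one] at this
    omega
  by_cases h0 : ∀ v, dg G v ≤ k
  · exact ⟨∅, fun v _ => by simpa [dg] using h0 v, by simp⟩
  push Not at h0
  obtain ⟨u, hu⟩ := h0
  by_cases h1 : ∃ u y, G.Adj u y ∧ k < dg G u ∧ k < dg G y
  · obtain ⟨w, hw⟩ := move1 hk hD h1
    exact step w hw
  push Not at h1
  by_cases h2 : ∃ a b, G.Adj a b ∧ dg G a ≤ k ∧ dg G b ≤ k
  · obtain ⟨a, b, h3, h4, h5⟩ := h2
    have le : cut k G ≤ G := fun _ _ h => h.1
    have lt : dg (cut k G) a < dg G a := card_lt_card ⟨fun _ h => mem_nb.2 (le (mem_nb.1 h)),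
      fun h => by
        have := (mem_nb.1 (h (mem_nb.2 h3))).2
        omega⟩
    have lt2 : pot k (cut k G) < pot k G := by
      refine sum_lt_sum (fun v _ => pp_mono hk (dg_mono le v)) ⟨a, mem_univ _, ?_⟩
      have h6 := pp_step hk (dg (cut k G) a) 1
      have h7 := pp_mono hk (Nat.succ_le_of_lt lt)
      simp only [Nat.succ_eq_add_one] at h7
      omega
    obtain ⟨D, h6, h7⟩ := ih _ (hn ▸ lt2) _ rfl fun v => (dg_mono le v).trans (hD v)
    refine ⟨D, fun v hv => ?_, h7.trans lt2.le⟩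
    by_cases h8 : dg G v ≤ k
    · exact le_trans (card_le_card sdiff_subset) h8
    · refine le_trans (card_le_card fun c hc => ?_) (h6 v hv)
      rw [mem_sdiff, mem_nb] at hc ⊢
      exact ⟨⟨hc.1, Or.inl (by omega)⟩, hc.2⟩
  push Not at h2
  by_cases h3 : ∃ w, dg G w ≤ k ∧ 2 ≤ dg G w
  · obtain ⟨w, h4, h5⟩ := h3
    exact step w (move2 hk hD h1 h2 h4 h5)
  push Not at h3
  exact step u (move3 hk hD h1 (fun v hv => Nat.le_of_lt_succ (h3 v hv)) hu)

/-- weight of a vertex of degree `d` in the first phase -/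
def qq (k d : ℕ) : ℕ := (k + 1) * d + if d = 0 then 0 else 2

/-- delete the edges at `w` -/
def iso (G : SimpleGraph V) (w : V) : SimpleGraph V where
  Adj a b := G.Adj a b ∧ a ≠ w ∧ b ≠ w
  symm := ⟨fun _ _ h => ⟨h.1.symm, h.2.2, h.2.1⟩⟩
  loopless := ⟨fun _ h => h.1.ne rfl⟩

lemma iso_pot (w : V) : ∑ v, qq k (dg (iso G w) v) + qq k (dg G w) + (k + 1) * dg G w ≤
    ∑ v, qq k (dg G v) := by
  have key : ∀ v, qq k (dg (iso G w) v) + (if v = w then qq k (dg G w) else 0) +
      (if v ∈ nb G w then k + 1 else 0) ≤ qq k (dg G v) := by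
    intro v
    by_cases h1 : v = w
    · subst h1
      have : dg (iso G v) v = 0 := by
        rw [dg, card_eq_zero, eq_empty_iff_forall_notMem]
        exact fun b hb => (mem_nb.1 hb).2.1 rfl
      simp [this, qq]
    have le : iso G w ≤ G := fun _ _ h => h.1
    rw [if_neg h1]
    split_ifs with h2
    · have lt : dg (iso G w) v < dg G v := card_lt_card ⟨fun _ h => mem_nb.2 (le (mem_nb.1 h)),
        fun h => (mem_nb.1 (h (mem_nb.2 (mem_nb.1 h2).symm))).2.2 rfl⟩
      have := Nat.mul_le_mul_left (k + 1) (Nat.succ_le_of_lt lt)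
      rw [Nat.succ_eq_add_one, mul_add] at this
      unfold qq
      split_ifs <;> omega
    · have h3 := dg_mono le v
      have := Nat.mul_le_mul_left (k + 1) h3
      unfold qq
      split_ifs <;> omega
  have s := sum_le_sum fun v (_ : v ∈ (univ : Finset V)) => key v
  simp only [sum_add_distrib, sum_ite_eq', mem_univ, if_true, sum_ite_mem, univ_inter, sum_const,
    smul_eq_mul] at s
  unfold dg at s ⊢
  linarith

lemma phase1 (hk : 2 ≤ k) (n : ℕ) : ∀ G : SimpleGraph V, ∑ v, qq k (dg G v) = n →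
    ∃ D, Ok k G D ∧ 2 * (k * k + 3 * k + 3) * D.card ≤ ∑ v, qq k (dg G v) := by
  induction n using Nat.strong_induction_on with
  | _ n ih =>
  intro G hn
  by_cases hD : ∀ v, dg G v ≤ k + 1
  · obtain ⟨D, h1, h2⟩ := phase2 hk _ G rfl hD
    refine ⟨D, h1, h2.trans (sum_le_sum fun v _ => ?_)⟩
    unfold pp qq gg
    split_ifs <;> omega
  push Not at hD
  obtain ⟨w, hw⟩ := hD
  have p := iso_pot (k := k) (G := G) w
  have q : qq k (dg G w) = (k + 1) * dg G w + 2 := by rw [qq, if_neg (by omega)]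
  have r : (k + 1) * (k + 2) ≤ (k + 1) * dg G w := Nat.mul_le_mul_left _ hw
  have t : ∑ v, qq k (dg (iso G w) v) + 2 * (k * k + 3 * k + 3) ≤ ∑ v, qq k (dg G v) := by
    nlinarith
  obtain ⟨D, h1, h2⟩ := ih _ (by omega) (iso G w) rfl
  refine ⟨insert w D, fun v hv => ?_, ?_⟩
  · rw [mem_insert, not_or] at hv
    refine le_trans (card_le_card fun b hb => ?_) (h1 v hv.2)
    simp only [mem_sdiff, mem_insert, not_or, mem_nb] at hb ⊢
    exact ⟨⟨hb.1, hv.1, hb.2.1⟩, hb.2.2⟩
  · have := Nat.mul_le_mul_left (2 * (k * k + 3 * k + 3)) (card_insert_le w D)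
    rw [mul_add_one] at this
    omega

/-- the main inequality -/
theorem main (hk : 2 ≤ k) (G : SimpleGraph V) : ∃ D, Ok k G D ∧
    2 * (k * k + 3 * k + 3) * D.card ≤ (k + 1) * ∑ v, dg G v + 2 * Fintype.card V := by
  obtain ⟨D, h1, h2⟩ := phase1 hk _ G rfl
  refine ⟨D, h1, h2.trans ?_⟩
  rw [mul_sum, ← card_univ, mul_comm 2, ← smul_eq_mul, ← sum_const, ← sum_add_distrib]
  refine sum_le_sum fun v _ => ?_
  unfold qq
  split_ifs <;> omega

end Pool.Agent.P.MP_39eed7_co.Sm
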