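import Pool.Agent.P.MP_39eed7_co.SmB

/-! The extremal graphs: disjoint unions of `K_j` joined to `k + 1` independent vertices. -/

set_option autoImplicit false
set_option linter.unusedSectionVars false

open Finset

namespace Pool.Agent.P.MP_39eed7_co.Sm

variable {I : Type} [Fintype I] [DecidableEq I]

/-- vertices: block `i` has `k + 1` left vertices and `j i` right vertices -/
abbrev BV (k : ℕ) (j : I → ℕ) : Type := Σ i : I, Fin (k + 1) ⊕ Fin (j i)

/-- distinct vertices of one block are adjacent unless both are left vertices -/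
def BG (k : ℕ) (j : I → ℕ) : SimpleGraph (BV k j) where
  Adj a b := a ≠ b ∧ a.1 = b.1 ∧ (a.2.isRight ∨ b.2.isRight)
  symm := ⟨fun _ _ h => ⟨h.1.symm, h.2.1.symm, h.2.2.symm⟩⟩
  loopless := ⟨fun _ h => h.1 rfl⟩

variable {k : ℕ} {j : I → ℕ}

lemma BV_card : Fintype.card (BV k j) = ∑ i, (k + 1 + j i) := by
  simp [Fintype.card_sigma]

lemma BG_left (i : I) (a : Fin (k + 1)) : dg (BG k j) ⟨i, Sum.inl a⟩ ≤ j i := by
  have : nb (BG k j) ⟨i, Sum.inl a⟩ ⊆
      univ.image fun b : Fin (j i) => (⟨i, Sum.inr b⟩ : BV k j) := by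
    rintro ⟨i', b⟩ hb
    obtain ⟨-, h1, h2⟩ := mem_nb.1 hb
    dsimp only at h1 h2
    subst h1
    rcases b with b | b
    · simp at h2
    · exact mem_image_of_mem _ (mem_univ _)
  simpa [dg] using (card_le_card this).trans card_image_le

lemma BG_right (i : I) (a : Fin (k + 1) ⊕ Fin (j i)) : dg (BG k j) ⟨i, a⟩ ≤ k + j i := by
  have : insert ⟨i, a⟩ (nb (BG k j) ⟨i, a⟩) ⊆
      univ.image fun b : Fin (k + 1) ⊕ Fin (j i) => (⟨i, b⟩ : BV k j) := by
    rintro ⟨i', b⟩ hb
    rcases mem_insert.1 hb with hb | hb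
    · rw [hb]
      exact mem_image_of_mem _ (mem_univ _)
    obtain ⟨-, h1, -⟩ := mem_nb.1 hb
    dsimp only at h1
    subst h1
    exact mem_image_of_mem _ (mem_univ _)
  have h := (card_le_card this).trans card_image_le
  rw [card_insert_of_notMem (by simp)] at h
  simp only [card_univ, Fintype.card_sum, Fintype.card_fin] at h
  unfold dg
  omega

lemma BG_sum : ∑ v, dg (BG k j) v ≤ ∑ i, ((k + 1) * j i + j i * (k + j i)) := by
  rw [Fintype.sum_sigma]
  refine sum_le_sum fun i _ => ?_
  rw [Fintype.sum_sum_type]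
  refine add_le_add ?_ ?_
  · simpa using sum_le_card_nsmul univ _ _ fun a _ => BG_left (j := j) i a
  · simpa using sum_le_card_nsmul univ _ _ fun a _ => BG_right (k := k) i (Sum.inr a)

lemma BG_indep (S : Finset (BV k j)) (h : ∀ v ∈ S, (S ∩ nb (BG k j) v).card ≤ k) :
    S.card ≤ Fintype.card I * (k + 1) := by
  rw [card_eq_sum_card_fiberwise (f := Sigma.fst) (t := univ) fun _ _ => mem_univ _]
  refine le_trans (sum_le_card_nsmul univ _ (k + 1) fun i _ => ?_) (by simp)
  by_cases h1 : ∃ v ∈ S, v.1 = i ∧ v.2.isRight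
  · obtain ⟨v, hv, h2, h3⟩ := h1
    have h4 : S.filter (fun w => w.1 = i) ⊆ insert v (S ∩ nb (BG k j) v) := by
      intro w hw
      rw [mem_filter] at hw
      by_cases h5 : w = v
      · simp [h5]
      · exact mem_insert_of_mem (mem_inter.2 ⟨hw.1, mem_nb.2
          ⟨Ne.symm h5, h2.trans hw.2.symm, Or.inl h3⟩⟩)
    exact (card_le_card h4).trans ((card_insert_le _ _).trans (Nat.succ_le_succ (h v hv)))
  · have h4 : S.filter (fun w => w.1 = i) ⊆
        univ.image fun b : Fin (k + 1) => (⟨i, Sum.inl b⟩ : BV k j) := by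
      rintro ⟨i', b⟩ hw
      rw [mem_filter] at hw
      obtain ⟨h5, h6⟩ := hw
      dsimp only at h6
      subst h6
      rcases b with b | b
      · exact mem_image_of_mem _ (mem_univ _)
      · exact absurd ⟨_, h5, rfl, rfl⟩ h1
    simpa using (card_le_card h4).trans card_image_le

/-- `a` stars and `b` copies of `K_2` joined to `k + 1` independent vertices -/
lemma exists_mix (k a b : ℕ) : ∃ (V : Type) (_ : Fintype V) (_ : DecidableEq V)
    (G : SimpleGraph V), Fintype.card V = a * (k + 2) + b * (k + 3) ∧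
      ∑ v, dg G v ≤ a * (2 * k + 2) + b * (4 * k + 6) ∧
      ∀ S : Finset V, (∀ v ∈ S, (S ∩ nb G v).card ≤ k) → S.card ≤ (a + b) * (k + 1) := by
  refine ⟨BV k (I := Fin a ⊕ Fin b) (Sum.elim (fun _ => 1) fun _ => 2), inferInstance,
    inferInstance, BG k _, ?_, ?_, fun S h => ?_⟩
  · rw [BV_card]
    simp [Fintype.sum_sum_type]
  · refine BG_sum.trans (le_of_eq ?_)
    simp only [Fintype.sum_sum_type, Sum.elim_inl, Sum.elim_inr, sum_const, card_univ,
      Fintype.card_fin, smul_eq_mul]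
    ring
  · simpa using BG_indep S h

end Pool.Agent.P.MP_39eed7_co.Sm
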