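import Pool.Agent.P.MP_39eed7_co.Improve
import Pool.Agent.P.MP_39eed7_co.Remove

/-! A near-extremal configuration contains a near-clique. -/

set_option autoImplicit false
set_option linter.unusedSectionVars false

open Finset

namespace Pool.Agent.P.MP_39eed7_co

variable {V : Type} [DecidableEq V] {k : ℕ} {G H : SimpleGraph V}

open Classical in
/-- either a clique or most vertices are clean -/
lemma clean_or {c : ℕ} (hc : k + 2 ≤ c) {U : Finset V} {m : ℕ} {κ τ : ℝ} (h0 : 0 < κ)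
    (h1 : κ ≤ 1) (hm : 2 ≤ κ * m) (hd : ∀ v ∈ U, dg G U v + c * dg H U v ≤ m)
    (hτ : m * (al k G H U : ℝ) + (k + 1) * al k G H U ≤ (k + 1) * U.card + τ) :
    (∃ Q ⊆ U, Q.Nonempty ∧ Q.card ≤ m ∧ ∀ q ∈ Q, (1 - κ) * m ≤ dg (G ⊔ H) Q q) ∨
    ∃ S ⊆ U, Valid k G H S ∧ m * ((al k G H U : ℝ) - S.card) ≤ τ ∧
      (U.card : ℝ) ≤ (U.filter (Clean k G H S)).card + al k G H U + τ * (1 + 2 * (k + 2) / κ) := by
  obtain ⟨S, hS, hv, hw, hq⟩ := exists_fav k G H U
  have hm0 : (0 : ℝ) < m := by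
    have : (0 : ℝ) ≤ m := Nat.cast_nonneg _
    nlinarith
  set Gd := U.filter (Good k G H S) with hGd
  have g1 : Gd ⊆ U \ S := fun w h =>
    mem_sdiff.2 ⟨(mem_filter.1 h).1, (mem_filter.1 h).2.1⟩
  by_cases hA : ∃ u ∈ S, dg G S u = k ∧ (1 - κ / 2) * m ≤ dg G Gd u
  · obtain ⟨u, hu, u1, u2⟩ := hA
    refine Or.inl ⟨nb G Gd u, nb_subset.trans (filter_subset _ _), ?_, ?_, fun q hq' => ?_⟩
    · rw [← card_pos]
      have : (0 : ℝ) < dg G Gd u := lt_of_lt_of_le (mul_pos (by linarith) hm0) u2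
      exact_mod_cast this
    · exact (dg_mono (filter_subset _ _)).trans (le_trans (Nat.le_add_right _ _) (hd u (hS hu)))
    · have e1 : (nb G Gd u).erase q ⊆ nb (G ⊔ H) (nb G Gd u) q := by
        intro x hx
        rw [mem_erase] at hx
        have a := mem_nb.1 hq'
        have b := mem_nb.1 hx.2
        exact mem_nb.2 ⟨hx.2, hq u hu u1 q (mem_filter.1 a.1).1 x (mem_filter.1 b.1).1
          (mem_filter.1 a.1).2 (mem_filter.1 b.1).2 a.2 b.2 hx.1.symm⟩
      have e2 : dg G Gd u ≤ dg (G ⊔ H) (nb G Gd u) q + 1 := by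
        have := card_le_card e1
        have h2 := card_erase_add_one hq'
        unfold dg
        omega
      have e3 : (dg G Gd u : ℝ) ≤ dg (G ⊔ H) (nb G Gd u) q + 1 := by exact_mod_cast e2
      linarith
  push Not at hA
  have c1 : ((U \ S).card : ℝ) + S.card = U.card := by
    exact_mod_cast card_sdiff_add_card_eq_card hS
  have c2 : (((U \ S) \ Gd).card : ℝ) + Gd.card = (U \ S).card := by
    exact_mod_cast card_sdiff_add_card_eq_card g1
  have c3 : (S.card : ℝ) ≤ al k G H U := by exact_mod_cast le_al hS hv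
  have c4 : (k + 1) * (U \ S).card + ((U \ S) \ Gd).card ≤ m * S.card := by
    calc _ = ∑ w ∈ U \ S, (k + 1 + if w ∈ (U \ S) \ Gd then 1 else 0) := by
          rw [sum_add_distrib, ← card_filter, filter_mem_eq_inter,
            inter_eq_right.2 sdiff_subset, sum_const, smul_eq_mul, mul_comm]
      _ ≤ ∑ w ∈ U \ S, (dg G S w + c * dg H S w) := by
          refine sum_le_sum fun w h => ?_
          have e1 := hw w h
          rcases Nat.eq_zero_or_pos (dg H S w) with e | e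
          · split_ifs with h'
            · have : dg G S w ≠ k + 1 := fun e' => (mem_sdiff.1 h').2
                (mem_filter.2 ⟨(mem_sdiff.1 h).1, (mem_sdiff.1 h).2, e', e⟩)
              rw [e] at e1 ⊢
              omega
            · rw [e] at e1 ⊢
              omega
          · have : c ≤ c * dg H S w := Nat.le_mul_of_pos_right _ e
            split_ifs <;> omega
      _ = ∑ u ∈ S, (dg G (U \ S) u + c * dg H (U \ S) u) := by
          rw [sum_add_distrib, sum_add_distrib, ← mul_sum, ← mul_sum, sum_dg_comm G,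
            sum_dg_comm H]
      _ ≤ ∑ _u ∈ S, m := sum_le_sum fun u hu => le_trans
          (add_le_add (dg_mono sdiff_subset) (Nat.mul_le_mul_left _ (dg_mono sdiff_subset)))
          (hd u (hS hu))
      _ = _ := by simp [mul_comm]
  have c5 : ((k : ℝ) + 1) * (U \ S).card + ((U \ S) \ Gd).card ≤ m * S.card := by
    exact_mod_cast c4
  set Sat := S.filter fun u => dg G S u = k with hSat
  have s1 : Sat ⊆ S := filter_subset _ _
  have c6 : ((S \ Sat).card : ℝ) + Sat.card = S.card := by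
    exact_mod_cast card_sdiff_add_card_eq_card s1
  have c7 : ((k : ℝ) + 1) * Gd.card ≤ (S \ Sat).card * m + Sat.card * ((1 - κ / 2) * m) := by
    have e1 : ∑ u ∈ S, (dg G Gd u : ℝ) = ∑ w ∈ Gd, (dg G S w : ℝ) := by
      exact_mod_cast sum_dg_comm G S Gd
    have e2 : (Gd.card : ℝ) * (k + 1) ≤ ∑ w ∈ Gd, (dg G S w : ℝ) :=
      card_mul_le_sum fun w h => by rw [(mem_filter.1 h).2.2.1]; push_cast; rfl
    have e3 := sum_le_card_mul (A := Sat) (f := fun u => (dg G Gd u : ℝ))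
      fun u h => (hA u (s1 h) (mem_filter.1 h).2).le
    have e4 := sum_le_card_mul (A := S \ Sat) (f := fun u => (dg G Gd u : ℝ)) (x := m)
      fun u h => by
        exact_mod_cast (dg_mono (filter_subset _ _)).trans
          (le_trans (Nat.le_add_right _ _) (hd u (hS (mem_sdiff.1 h).1)))
    rw [← sum_sdiff s1] at e1
    linarith
  have c8 : (Gd.card : ℝ) ≤ (U.filter (Clean k G H S)).card + Sat.card * m := by
    have e1 : Gd ⊆ U.filter (Clean k G H S) ∪ Sat.biUnion (nb G U) := by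
      intro w h
      rw [mem_filter] at h
      by_contra h'
      rw [mem_union, not_or] at h'
      refine h'.1 (mem_filter.2 ⟨h.1, h.2, fun s hs a => ?_⟩)
      have e2 := hv.1 s hs
      have e3 : dg G S s ≠ k := fun e =>
        h'.2 (mem_biUnion.2 ⟨s, mem_filter.2 ⟨hs, e⟩, mem_nb.2 ⟨h.1, a.symm⟩⟩)
      omega
    have e2 := (card_le_card e1).trans ((card_union_le _ _).trans (Nat.add_le_add_left
      (card_biUnion_nb_le fun x hx => le_trans (Nat.le_add_right _ _) (hd x (hS (s1 hx)))) _))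
    exact_mod_cast e2
  have n1 : (0 : ℝ) ≤ ((U \ S) \ Gd).card := Nat.cast_nonneg _
  have k0 : (0 : ℝ) ≤ k := Nat.cast_nonneg _
  have d1 : ((k : ℝ) + 1) * S.card ≤ (k + 1) * al k G H U := by gcongr
  have d2 : (m : ℝ) * S.card ≤ m * al k G H U := by gcongr
  have d3 : m * (al k G H U : ℝ) ≤ (k + 1) * (U \ S).card + τ := by nlinarith
  have d4 : (((U \ S) \ Gd).card : ℝ) ≤ τ := by linarith
  have d5 : ((k : ℝ) + 1) * ((U \ S) \ Gd).card ≤ (k + 1) * τ := by gcongr
  have d6 : κ * ((Sat.card : ℝ) * m) ≤ 2 * (k + 2) * τ := by nlinarith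
  have d7 : (Sat.card : ℝ) * m ≤ τ * (2 * (k + 2) / κ) := by
    rw [← mul_div_assoc, le_div_iff₀ h0]
    linarith
  exact Or.inr ⟨S, hS, hv, by linarith, by linarith⟩

theorem struct (k c : ℕ) (hc : k + 2 ≤ c) {κ C : ℝ} (h0 : 0 < κ) (h1 : κ ≤ 1) :
    ∃ ε : ℝ, 0 < ε ∧ ∃ m0 : ℕ, ∀ m ≥ m0, ∀ (V : Type) [DecidableEq V] (G H : SimpleGraph V)
      (U : Finset V), U.Nonempty → (∀ v ∈ U, dg G U v + c * dg H U v ≤ m) →
      m * (al k G H U : ℝ) ≤ (1 + ε) * (k + 1) * U.card → (E2 H U : ℝ) ≤ C * U.card →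
      ∃ Q ⊆ U, Q.Nonempty ∧ Q.card ≤ m ∧ ∀ q ∈ Q, (1 - κ) * m ≤ dg (G ⊔ H) Q q := by
  classical
  set δ := κ / 5 with hδ
  have δ0 : 0 < δ := by positivity
  set D : ℝ := (2 * k + 2) * (k + 5) with hD
  set B : ℝ := 1 + 2 * (k + 1) * (1 + 2 * (k + 2) / κ + D) with hB
  have B1 : 1 ≤ B := le_add_of_nonneg_right (by positivity)
  set ε := δ / B with hε
  have ε0 : 0 < ε := by positivity
  have ε1 : ε * B = δ := by rw [hε]; field_simp
  have ε2 : ε ≤ δ := by nlinarith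
  set h := ⌈C / δ⌉₊ with hh
  set M := (2 * k + 2) * (4 * (k + 1) ^ 2) ^ k with hM
  obtain ⟨m1, hm1⟩ := kst δ0 (by linarith) (M * (h + 1) + 1)
  refine ⟨ε, ε0, ⌈m1⌉₊ + ⌈2 / κ⌉₊ + ⌈(1 + ε) * (k + 1) / ε⌉₊,
    fun m hm V _ G H U hU hd ha hE => ?_⟩
  have m2 : m1 ≤ m := Nat.ceil_le.1 (by omega)
  have m3 : 2 ≤ κ * m := by
    have := Nat.ceil_le.1 (show ⌈2 / κ⌉₊ ≤ m by omega)
    rw [div_le_iff₀ h0] at this
    linarith
  have m4 : (1 + ε) * (k + 1) ≤ m * ε :=
    (div_le_iff₀ ε0).1 (Nat.ceil_le.1 (show _ ≤ m by omega))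
  have m0 : (0 : ℝ) < m := by
    have : (0 : ℝ) ≤ m := Nat.cast_nonneg _
    nlinarith
  have n0 : (0 : ℝ) < U.card := by exact_mod_cast card_pos.2 hU
  have k0 : (0 : ℝ) ≤ k := Nat.cast_nonneg _
  have a1 : (al k G H U : ℝ) ≤ ε * U.card := by
    refine le_of_mul_le_mul_left (ha.trans ?_) m0
    rw [← mul_assoc]
    gcongr
  have a2 : ((k : ℝ) + 1) * al k G H U ≤ (k + 1) * (ε * U.card) := by gcongr
  rcases clean_or (τ := 2 * ε * (k + 1) * U.card) hc h0 h1 m3 hd (by linarith) with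
    hQ | ⟨S0, s1, s2, s3, s4⟩
  · exact hQ
  have hd' : ∀ v ∈ U, dg (G ⊔ H) U v ≤ m := fun v hv => dg_sup_le.trans (le_trans
    (Nat.add_le_add_left (Nat.le_mul_of_pos_left _ (by omega)) _) (hd v hv))
  obtain ⟨S, t1, t2, t3, t4⟩ := stable (by exact_mod_cast m0) hd' s1 s2
  have t5 : ((U.filter (Clean k G H S0)).card : ℝ) + D * m * S0.card ≤
      (U.filter (Clean k G H S)).card + D * m * al k G H U := by
    rw [hD]
    exact_mod_cast t3
  have t6 : D * (m * ((al k G H U : ℝ) - S0.card)) ≤ D * (2 * ε * (k + 1) * U.card) := by gcongr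
  have t7 : (1 - δ) * U.card ≤ (U.filter (Clean k G H S)).card := by
    rw [← ε1, hB]
    linarith
  set Hi := U.filter fun v => h < dg H U v with hHi
  have i1 : (Hi.card : ℝ) ≤ δ * U.card := by
    have e1 : (Hi.card : ℝ) * (h + 1) ≤ ∑ v ∈ Hi, (dg H U v : ℝ) :=
      card_mul_le_sum fun v hv => by exact_mod_cast (mem_filter.1 hv).2
    have e2 : ∑ v ∈ Hi, (dg H U v : ℝ) ≤ E2 H U := by
      exact_mod_cast sum_le_sum_of_subset (f := dg H U) (filter_subset _ U)
    have e3 : C ≤ h * δ := (div_le_iff₀ δ0).1 (Nat.le_ceil _)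
    refine le_of_mul_le_mul_right (e1.trans (e2.trans (hE.trans ?_))) (by positivity)
    nlinarith
  set Cl := U.filter (Clean k G H S) \ Hi with hCl
  have l1 : ∀ w ∈ Cl, w ∈ U ∧ Clean k G H S w ∧ dg H U w ≤ h := by
    intro w hw
    rw [mem_sdiff, mem_filter] at hw
    exact ⟨hw.1.1, hw.1.2, not_lt.1 fun e => hw.2 (mem_filter.2 ⟨hw.1.1, e⟩)⟩
  have l2 : (1 - 2 * δ) * U.card ≤ Cl.card := by
    have e1 : (U.filter (Clean k G H S)).card ≤ Cl.card + Hi.card := card_le_card_sdiff_add_card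
    have e2 : ((U.filter (Clean k G H S)).card : ℝ) ≤ Cl.card + Hi.card := by exact_mod_cast e1
    linarith
  obtain ⟨u, hu, u1⟩ : ∃ u ∈ S, (1 - 3 * δ) * m ≤ dg G Cl u := by
    by_contra hn
    push Not at hn
    have e1 : ∑ u ∈ S, (dg G Cl u : ℝ) = ∑ w ∈ Cl, (dg G S w : ℝ) := by
      exact_mod_cast sum_dg_comm G S Cl
    have e2 : (Cl.card : ℝ) * (k + 1) ≤ ∑ w ∈ Cl, (dg G S w : ℝ) :=
      card_mul_le_sum fun w h => by rw [(l1 w h).2.1.1.2.1]; push_cast; rfl
    have e3 := sum_le_card_mul (A := S) (f := fun u => (dg G Cl u : ℝ)) fun u h => (hn u h).le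
    have e4 : (S.card : ℝ) ≤ al k G H U := by exact_mod_cast le_al t1 t2
    have e5 : 0 ≤ 1 - 3 * δ := by linarith
    have e6 : (S.card : ℝ) * ((1 - 3 * δ) * m) ≤ (1 - 3 * δ) * ((1 + δ) * (k + 1) * U.card) := by
      calc _ ≤ (al k G H U : ℝ) * ((1 - 3 * δ) * m) := by gcongr
        _ = (1 - 3 * δ) * (m * al k G H U) := by ring
        _ ≤ (1 - 3 * δ) * ((1 + ε) * (k + 1) * U.card) := by gcongr
        _ ≤ _ := by gcongr
    have e7 : (1 - 2 * δ) * U.card * (k + 1) ≤ (Cl.card : ℝ) * (k + 1) := by gcongr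
    have e8 : 0 < δ ^ 2 * ((k + 1) * U.card) := by positivity
    nlinarith
  set Q0 := nb G Cl u with hQ0
  have q1 : Q0 ⊆ U := fun x hx => (l1 x (nb_subset hx)).1
  have q2 : Q0.card ≤ m := (dg_mono fun x hx => (l1 x hx).1).trans
    (le_trans (Nat.le_add_right _ _) (hd u (t1 hu)))
  have q3 : (1 - 3 * δ) * m ≤ Q0.card := u1
  set P := Q0.filter fun p => dg (G ⊔ H) Q0 p + δ * m ≤ Q0.card with hP
  have p1 : P ⊆ Q0 := filter_subset _ _
  have p2 : ((Q0 \ P).card : ℝ) + P.card = Q0.card := by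
    exact_mod_cast card_sdiff_add_card_eq_card p1
  by_cases hP' : δ * m ≤ P.card
  · obtain ⟨A, a3, B, b3, d, a4, b4, n⟩ := hm1 m m2 V (G ⊔ H) Q0 P p1 (by exact_mod_cast q2) hP'
      fun p hp => (mem_filter.1 hp).2
    simp only [SimpleGraph.sup_adj, not_or] at n
    obtain ⟨A', a5, a6, a7⟩ := exists_indep H h M A
      (fun x hx => (dg_mono (a3.trans q1)).trans (l1 x (nb_subset (a3 hx))).2.2) a4
    obtain ⟨B', b5, b6, b7⟩ := exists_indep H h M B
      (fun x hx => (dg_mono (b3.trans q1)).trans (l1 x (nb_subset (b3 hx))).2.2) b4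
    have e1 : A' ∪ B' ⊆ Q0 := union_subset (a5.trans a3) (b5.trans b3)
    refine (t4 u hu A' B' (e1.trans q1)
      (fun x hx => ⟨(l1 x (nb_subset (e1 hx))).2.1, (mem_nb.1 (e1 hx)).2.symm⟩) (d.mono a5 b5)
      (fun x hx y hy => ?_) (fun x hx y hy => (n x (a5 hx) y (b5 hy)).1)
      (by omega) (by omega)).elim
    rcases mem_union.1 hx with hx | hx <;> rcases mem_union.1 hy with hy | hy
    · exact a7 x hx y hy
    · exact (n x (a5 hx) y (b5 hy)).2
    · exact fun a => (n y (a5 hy) x (b5 hx)).2 a.symm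
    · exact b7 x hx y hy
  · refine ⟨Q0 \ P, sdiff_subset.trans q1, ?_, (card_le_card sdiff_subset).trans q2,
      fun q hq => ?_⟩
    · rw [← card_pos]
      have : (0 : ℝ) < (Q0 \ P).card := by nlinarith
      exact_mod_cast this
    · rw [mem_sdiff] at hq
      have e1 := not_le.1 fun e => hq.2 (mem_filter.2 ⟨hq.1, e⟩)
      have e2 : (dg (G ⊔ H) (Q0 \ P) q : ℝ) + dg (G ⊔ H) P q = dg (G ⊔ H) Q0 q := by
        exact_mod_cast dg_sdiff p1
      have e3 : (dg (G ⊔ H) P q : ℝ) ≤ P.card := by exact_mod_cast dg_le_card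
      have e4 : κ = 5 * δ := by rw [hδ]; ring
      rw [e4]
      linarith

end Pool.Agent.P.MP_39eed7_co
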